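import Pool.Agent.W819.Kin.Key

/-! Coherent state lower bound for the kinetic energy of fermions: `S_kin`. -/

set_option autoImplicit false

noncomputable section

namespace Pool.Agent.W819.Kin

open MeasureTheory Filter Topology
open scoped ENNReal ComplexConjugate
open Pool.Agent.W564.MY

variable {N d : ℕ}

/-- the density tested with a nonnegative function -/
lemma dens {Ψ : (Fin N → E d) → ℂ} (hΨ : MemLp Ψ 2) {ρ : E d → ℝ} (hρ : Measurable ρ)
    (hD : HasDensity Ψ (fun x => ENNReal.ofReal (ρ x))) (g : E d → ℝ≥0∞) (hg : Measurable g) :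
    ∑ i : Fin N, ∫⁻ x : Fin N → E d, g (x i) * ‖Ψ x‖ₑ ^ 2 =
      ∫⁻ z, g z * ENNReal.ofReal (ρ z) := by
  have hΨm : AEMeasurable (fun x : Fin N → E d => ‖Ψ x‖ₑ ^ 2) := hΨ.1.enorm.pow_const 2
  have hpt : ∀ x, ENNReal.ofReal (‖Ψ x‖ ^ 2) = ‖Ψ x‖ₑ ^ 2 := fun x => by
    rw [ENNReal.ofReal_pow (norm_nonneg _), ofReal_norm]
  have h1 : ∑ i : Fin N, Measure.map (fun x : Fin N → E d => x i)
      ((volume : Measure (Fin N → E d)).withDensity (fun x => ‖Ψ x‖ₑ ^ 2)) =
      (volume : Measure (E d)).withDensity (fun x => ENNReal.ofReal (ρ x)) := by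
    refine Measure.ext fun A hA => ?_
    rw [Measure.finsetSum_apply, withDensity_apply _ hA, ← hD A hA]
    refine Finset.sum_congr rfl fun i _ => ?_
    rw [Measure.map_apply (measurable_pi_apply i) hA,
      withDensity_apply _ ((measurable_pi_apply i) hA)]
    simp only [hpt]
    rfl
  have h2 : ∫⁻ z, g z ∂((volume : Measure (E d)).withDensity (fun x => ENNReal.ofReal (ρ x))) =
      ∫⁻ z, g z * ENNReal.ofReal (ρ z) := by
    rw [lintegral_withDensity_eq_lintegral_mul _ (by fun_prop) hg]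
    refine lintegral_congr fun z => ?_
    rw [Pi.mul_apply, mul_comm]
  rw [← h2, ← h1, lintegral_finsetSum_measure]
  refine Finset.sum_congr rfl fun i _ => ?_
  rw [lintegral_map hg (measurable_pi_apply i),
    lintegral_withDensity_eq_lintegral_mul₀ hΨm (g := fun a : Fin N → E d => g (a i))
      (hg.comp (measurable_pi_apply i)).aemeasurable]
  refine lintegral_congr fun z => ?_
  rw [Pi.mul_apply, mul_comm]

lemma cross_zero {γ : E d → ℝ} (hγ : ContDiff ℝ ((⊤ : ℕ∞) : WithTop ℕ∞) γ)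
    (hγc : HasCompactSupport γ) (v : E d) : ∫ x, γ x * fderiv ℝ γ x v = 0 := by
  have hdc : Continuous (fun t => fderiv ℝ γ t v) :=
    (hγ.continuous_fderiv (by simp)).clm_apply continuous_const
  have i1 : Integrable (fun x => fderiv ℝ γ x v * γ x) :=
    (hdc.mul hγ.continuous).integrable_of_hasCompactSupport hγc.mul_left
  have i2 : Integrable (fun x => γ x * fderiv ℝ γ x v) :=
    (hγ.continuous.mul hdc).integrable_of_hasCompactSupport hγc.mul_right
  have i3 : Integrable (fun x => γ x * γ x) :=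
    (hγ.continuous.mul hγ.continuous).integrable_of_hasCompactSupport hγc.mul_right
  have h := integral_mul_fderiv_eq_neg_fderiv_mul_of_integrable (v := v) i1 i2 i3
    (fun x _ => hγ.differentiable (by simp) x) (fun x _ => hγ.differentiable (by simp) x)
  have h2 : ∫ x, fderiv ℝ γ x v * γ x = ∫ x, γ x * fderiv ℝ γ x v := by
    simp only [mul_comm]
  rw [h2] at h
  linarith

/-- the `y`-integral -/
lemma inner_y {γ : E d → ℝ} (hγ : ContDiff ℝ ((⊤ : ℕ∞) : WithTop ℕ∞) γ)
    (hγc : HasCompactSupport γ) (hγ1 : ∫ x, γ x ^ 2 = 1) (v : E d) (b : E d) (z w : ℂ) :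
    ∫⁻ y, ‖((γ (y - b) : ℝ) : ℂ) * z + ((-fderiv ℝ γ (y - b) v : ℝ) : ℂ) * w‖ₑ ^ 2 =
      ENNReal.ofReal (‖z‖ ^ 2 + (∫ x, (fderiv ℝ γ x v) ^ 2) * ‖w‖ ^ 2) := by
  rw [lintegral_sub_right_eq_self (μ := (volume : Measure (E d)))
    (fun y => ‖((γ y : ℝ) : ℂ) * z + ((-fderiv ℝ γ y v : ℝ) : ℂ) * w‖ₑ ^ 2) b]
  have hdc : Continuous (fun t => fderiv ℝ γ t v) :=
    (hγ.continuous_fderiv (by simp)).clm_apply continuous_const
  have hdcs : HasCompactSupport (fun t => fderiv ℝ γ t v) := hγc.fderiv_apply (𝕜 := ℝ) _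
  have hc : Continuous (fun y => ((γ y : ℝ) : ℂ) * z + ((-fderiv ℝ γ y v : ℝ) : ℂ) * w) := by
    have h1 : Continuous (fun y => ((γ y : ℝ) : ℂ)) :=
      Complex.continuous_ofReal.comp hγ.continuous
    have h2 : Continuous (fun y => ((-fderiv ℝ γ y v : ℝ) : ℂ)) :=
      Complex.continuous_ofReal.comp hdc.neg
    exact (h1.mul continuous_const).add (h2.mul continuous_const)
  have hcs : HasCompactSupport
      (fun y => ((γ y : ℝ) : ℂ) * z + ((-fderiv ℝ γ y v : ℝ) : ℂ) * w) := by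
    refine HasCompactSupport.add ?_ ?_
    · exact (hγc.comp_left (g := fun y : ℝ => (y : ℂ)) Complex.ofReal_zero).mul_right
    · refine HasCompactSupport.mul_right ?_
      exact hdcs.comp_left (g := fun y : ℝ => ((-y : ℝ) : ℂ)) (by simp)
  rw [lint_sq_eq (hc.memLp_of_hasCompactSupport hcs)]
  congr 1
  have e1 : ∀ y, ‖((γ y : ℝ) : ℂ) * z + ((-fderiv ℝ γ y v : ℝ) : ℂ) * w‖ ^ 2 =
      ‖z‖ ^ 2 * γ y ^ 2 + ‖w‖ ^ 2 * (fderiv ℝ γ y v) ^ 2 -
        2 * (z * conj w).re * (γ y * fderiv ℝ γ y v) := by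
    intro y
    rw [← Complex.normSq_eq_norm_sq, ← Complex.normSq_eq_norm_sq, ← Complex.normSq_eq_norm_sq]
    simp only [Complex.normSq_apply, Complex.add_re, Complex.add_im, Complex.mul_re,
      Complex.mul_im, Complex.ofReal_re, Complex.ofReal_im, Complex.conj_re, Complex.conj_im]
    ring
  simp only [e1]
  have j1 : Integrable (fun y => γ y ^ 2) := by
    simp only [sq]
    exact (hγ.continuous.mul hγ.continuous).integrable_of_hasCompactSupport hγc.mul_right
  have j2 : Integrable (fun y => (fderiv ℝ γ y v) ^ 2) := by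
    simp only [sq]
    exact (hdc.mul hdc).integrable_of_hasCompactSupport hdcs.mul_right
  have j3 : Integrable (fun y => γ y * fderiv ℝ γ y v) :=
    (hγ.continuous.mul hdc).integrable_of_hasCompactSupport hγc.mul_right
  have k12 : Integrable (fun y => ‖z‖ ^ 2 * γ y ^ 2 + ‖w‖ ^ 2 * (fderiv ℝ γ y v) ^ 2) :=
    (j1.const_mul _).add (j2.const_mul _)
  rw [integral_sub k12 (j3.const_mul _),
    integral_add (j1.const_mul _) (j2.const_mul _), integral_const_mul, integral_const_mul,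
    integral_const_mul, hγ1, cross_zero hγ hγc v]
  ring

/-- **Semiclassical lower bound for the kinetic energy of fermions** -/
theorem kin_lower (N d : ℕ) (hd : 1 ≤ d) (Ψ : (Fin N → E d) → ℂ)
    (G : Fin N → Fin d → (Fin N → E d) → ℂ) (H : IsH1N Ψ G) (has : Antisym Ψ)
    (h1 : ∫ x, ‖Ψ x‖ ^ 2 = 1) (ρ : E d → ℝ) (hρ : Measurable ρ) (hρ0 : ∀ x, 0 ≤ ρ x)
    (hD : HasDensity Ψ (fun x => ENNReal.ofReal (ρ x))) (γ : E d → ℝ)
    (hγ : ContDiff ℝ ((⊤ : ℕ∞) : WithTop ℕ∞) γ) (hγc : HasCompactSupport γ)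
    (hγ1 : ∫ x, γ x ^ 2 = 1) :
    Kcl d * (∫ x, (∫ y, ρ y * γ (x - y) ^ 2) ^ (1 + 2 / (d : ℝ))) -
        N * ∑ c, ∫ x, (fderiv ℝ γ x (Pi.single c (1 : ℝ))) ^ 2 ≤
      ∑ i, ∑ c, ∫ x, ‖G i c x‖ ^ 2 := by
  obtain ⟨hΨ, hG, hW⟩ := H
  set R : E d → ℝ := fun y => ∫ z, ρ z * γ (y - z) ^ 2 with hR
  set n : Fin d → ℝ := fun c => ∫ x, (fderiv ℝ γ x (Pi.single c (1 : ℝ))) ^ 2 with hn
  have hn0 : ∀ c, 0 ≤ n c := fun c => integral_nonneg fun x => sq_nonneg _
  have hR0 : ∀ y, 0 ≤ R y := fun y => integral_nonneg fun z => mul_nonneg (hρ0 z) (sq_nonneg _)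
  have hΨl : ∫⁻ x, ‖Ψ x‖ₑ ^ 2 = 1 := by rw [lint_sq_eq hΨ, h1, ENNReal.ofReal_one]
  -- `ρ` is integrable
  have hρi : Integrable ρ := by
    refine ⟨hρ.aestronglyMeasurable, ?_⟩
    have h2 := dens hΨ hρ hD (fun _ => 1) measurable_const
    simp only [one_mul, hΨl, Finset.sum_const, Finset.card_univ, Fintype.card_fin,
      nsmul_eq_mul, mul_one] at h2
    rw [hasFiniteIntegral_iff_ofReal (Filter.Eventually.of_forall hρ0), ← h2]
    exact ENNReal.natCast_lt_top N
  obtain ⟨Cγ, hCγ⟩ := hγc.exists_bound_of_continuous hγ.continuous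
  -- the fixed `y` inequality
  have hy : ∀ y : E d, ENNReal.ofReal (Kcl d * R y ^ (1 + 2 / (d : ℝ))) ≤
      ∑ i : Fin N, ∑ c : Fin d, ∫⁻ x : Fin N → E d, ‖((γ (y - x i) : ℝ) : ℂ) * G i c x +
        ((-fderiv ℝ γ (y - x i) (Pi.single c (1 : ℝ)) : ℝ) : ℂ) * Ψ x‖ₑ ^ 2 := by
    intro y
    have ha : ContDiff ℝ ((⊤ : ℕ∞) : WithTop ℕ∞) (fun t => γ (y - t)) :=
      hγ.comp (contDiff_const.sub contDiff_id)
    have hac : HasCompactSupport (fun t => γ (y - t)) :=
      hγc.comp_homeomorph (Homeomorph.subLeft y)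
    have ha1 : ∫ t, γ (y - t) ^ 2 = 1 := by
      rw [integral_sub_left_eq_self (fun t => γ t ^ 2) (volume : Measure (E d)) y, hγ1]
    have hfd : ∀ t v, fderiv ℝ (fun t => γ (y - t)) t v = -fderiv ℝ γ (y - t) v := by
      intro t v
      have h5 : HasFDerivAt γ (fderiv ℝ γ (y - t)) (y - t) :=
        (hγ.differentiable (by simp) _).hasFDerivAt
      have h6 := h5.comp t ((hasFDerivAt_id t).const_sub y)
      have h7 : fderiv ℝ (fun t => γ (y - t)) t =
          (fderiv ℝ γ (y - t)).comp (-ContinuousLinearMap.id ℝ (E d)) := h6.fderiv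
      rw [h7]
      simp
    have hrr : ∑ i : Fin N, ∫⁻ x : Fin N → E d, ‖((γ (y - x i) : ℝ) : ℂ) * Ψ x‖ₑ ^ 2 =
        ENNReal.ofReal (R y) := by
      have h2 := dens hΨ hρ hD (fun t => ENNReal.ofReal (γ (y - t) ^ 2))
        ((hγ.continuous.measurable.comp (measurable_const.sub measurable_id)).pow_const
          2).ennreal_ofReal
      have h3 : ∀ (i : Fin N) (x : Fin N → E d), ‖((γ (y - x i) : ℝ) : ℂ) * Ψ x‖ₑ ^ 2 =
          ENNReal.ofReal (γ (y - x i) ^ 2) * ‖Ψ x‖ₑ ^ 2 := by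
        intro i x
        rw [enorm_mul, mul_pow]
        congr 1
        rw [← ofReal_norm, ← ENNReal.ofReal_pow (norm_nonneg _), Complex.norm_real,
          Real.norm_eq_abs, sq_abs]
      simp only [h3]
      rw [h2, hR, ofReal_integral_eq_lintegral_ofReal]
      · refine lintegral_congr fun z => ?_
        rw [mul_comm, ENNReal.ofReal_mul (hρ0 z)]
      · refine (hρi.norm.mul_const (Cγ ^ 2)).mono' ?_ ?_
        · exact hρ.aestronglyMeasurable.mul
            ((hγ.continuous.comp (continuous_const.sub continuous_id)).pow 2).aestronglyMeasurable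
        · refine Filter.Eventually.of_forall fun z => ?_
          rw [norm_mul, norm_pow]
          gcongr
          exact hCγ _
      · exact Filter.Eventually.of_forall fun z => mul_nonneg (hρ0 z) (sq_nonneg _)
    have hk := key hd ⟨hΨ, hG, hW⟩ has h1 ha hac ha1 (R y) (hR0 y) hrr
    simp only [hfd] at hk
    exact hk
  -- integrate over `y`
  have hint : ∫⁻ y : E d, ENNReal.ofReal (Kcl d * R y ^ (1 + 2 / (d : ℝ))) ≤
      ENNReal.ofReal ((∑ i, ∑ c, ∫ x, ‖G i c x‖ ^ 2) + N * ∑ c, n c) := by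
    have hmeas : ∀ (i : Fin N) (c : Fin d), AEMeasurable
        (fun q : E d × (Fin N → E d) => ‖((γ (q.1 - q.2 i) : ℝ) : ℂ) * G i c q.2 +
        ((-fderiv ℝ γ (q.1 - q.2 i) (Pi.single c (1 : ℝ)) : ℝ) : ℂ) * Ψ q.2‖ₑ ^ 2)
        ((volume : Measure (E d)).prod (volume : Measure (Fin N → E d))) := by
      intro i c
      have hdc : Continuous (fun t => fderiv ℝ γ t (Pi.single c (1 : ℝ))) :=
        (hγ.continuous_fderiv (by simp)).clm_apply continuous_const
      have hsub : Continuous (fun q : E d × (Fin N → E d) => q.1 - q.2 i) :=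
        continuous_fst.sub ((continuous_apply i).comp continuous_snd)
      have c1 : Continuous (fun q : E d × (Fin N → E d) => ((γ (q.1 - q.2 i) : ℝ) : ℂ)) :=
        Complex.continuous_ofReal.comp (hγ.continuous.comp hsub)
      have c2 : Continuous (fun q : E d × (Fin N → E d) =>
          ((-fderiv ℝ γ (q.1 - q.2 i) (Pi.single c (1 : ℝ)) : ℝ) : ℂ)) :=
        Complex.continuous_ofReal.comp (hdc.comp hsub).neg
      have s1 : AEStronglyMeasurable (fun q : E d × (Fin N → E d) =>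
          ((γ (q.1 - q.2 i) : ℝ) : ℂ) * G i c q.2)
          ((volume : Measure (E d)).prod (volume : Measure (Fin N → E d))) :=
        c1.aestronglyMeasurable.mul ((hG i c).1.comp_snd)
      have s2 : AEStronglyMeasurable (fun q : E d × (Fin N → E d) =>
          ((-fderiv ℝ γ (q.1 - q.2 i) (Pi.single c (1 : ℝ)) : ℝ) : ℂ) * Ψ q.2)
          ((volume : Measure (E d)).prod (volume : Measure (Fin N → E d))) :=
        c2.aestronglyMeasurable.mul (hΨ.1.comp_snd)
      exact (s1.add s2).enorm.pow_const 2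
    calc ∫⁻ y : E d, ENNReal.ofReal (Kcl d * R y ^ (1 + 2 / (d : ℝ)))
        ≤ ∫⁻ y : E d, ∑ i : Fin N, ∑ c : Fin d, ∫⁻ x : Fin N → E d,
          ‖((γ (y - x i) : ℝ) : ℂ) * G i c x +
          ((-fderiv ℝ γ (y - x i) (Pi.single c (1 : ℝ)) : ℝ) : ℂ) * Ψ x‖ₑ ^ 2 :=
          lintegral_mono hy
      _ = ∑ i : Fin N, ∑ c : Fin d, ∫⁻ y : E d, ∫⁻ x : Fin N → E d,
          ‖((γ (y - x i) : ℝ) : ℂ) * G i c x +
          ((-fderiv ℝ γ (y - x i) (Pi.single c (1 : ℝ)) : ℝ) : ℂ) * Ψ x‖ₑ ^ 2 := by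
          have hm2 := fun i c => (hmeas i c).lintegral_prod_right'
          rw [lintegral_finsetSum' _ (fun i _ => Finset.aemeasurable_fun_sum _
            fun c _ => hm2 i c)]
          refine Finset.sum_congr rfl fun i _ => ?_
          rw [lintegral_finsetSum' _ (fun c _ => hm2 i c)]
      _ = ∑ i : Fin N, ∑ c : Fin d, ENNReal.ofReal ((∫ x, ‖G i c x‖ ^ 2) + n c) := by
          refine Finset.sum_congr rfl fun i _ => Finset.sum_congr rfl fun c _ => ?_
          rw [lintegral_lintegral_swap (hmeas i c)]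
          simp only [inner_y hγ hγc hγ1]
          have hGi := (memLp_two_iff_integrable_sq_norm (hG i c).1).1 (hG i c)
          have hΨi := (memLp_two_iff_integrable_sq_norm hΨ.1).1 hΨ
          have hadd : Integrable (fun x : Fin N → E d => ‖G i c x‖ ^ 2 +
              (∫ x, (fderiv ℝ γ x (Pi.single c (1 : ℝ))) ^ 2) * ‖Ψ x‖ ^ 2) :=
            hGi.add (hΨi.const_mul _)
          rw [← ofReal_integral_eq_lintegral_ofReal hadd,
            integral_add hGi (hΨi.const_mul _), integral_const_mul, h1, mul_one]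
          exact Filter.Eventually.of_forall fun x => add_nonneg (sq_nonneg _)
            (mul_nonneg (hn0 c) (sq_nonneg _))
      _ = _ := by
          have hnn : ∀ (i : Fin N) (c : Fin d), 0 ≤ (∫ x, ‖G i c x‖ ^ 2) + n c := fun i c =>
            add_nonneg (integral_nonneg fun x => sq_nonneg _) (hn0 c)
          have e1 : ∀ i : Fin N, ∑ c : Fin d, ENNReal.ofReal ((∫ x, ‖G i c x‖ ^ 2) + n c) =
              ENNReal.ofReal (∑ c : Fin d, ((∫ x, ‖G i c x‖ ^ 2) + n c)) := fun i => by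
            rw [ENNReal.ofReal_sum_of_nonneg fun c _ => hnn i c]
          simp only [e1]
          rw [← ENNReal.ofReal_sum_of_nonneg
            fun i _ => Finset.sum_nonneg fun c _ => hnn i c]
          congr 1
          simp only [Finset.sum_add_distrib, Finset.sum_const, Finset.card_univ,
            Fintype.card_fin, nsmul_eq_mul]
  -- conclusion
  have hTn : 0 ≤ (∑ i, ∑ c, ∫ x, ‖G i c x‖ ^ 2) + N * ∑ c, n c :=
    add_nonneg (Finset.sum_nonneg fun i _ => Finset.sum_nonneg fun c _ =>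
      integral_nonneg fun x => sq_nonneg _)
      (mul_nonneg (Nat.cast_nonneg _) (Finset.sum_nonneg fun c _ => hn0 c))
  have hK : 0 ≤ Kcl d := by
    unfold Kcl
    have := (ballVol_pos (d := d)).le
    positivity
  have hfin : Kcl d * ∫ y, R y ^ (1 + 2 / (d : ℝ)) ≤
      (∑ i, ∑ c, ∫ x, ‖G i c x‖ ^ 2) + N * ∑ c, n c := by
    by_cases hi : Integrable (fun y => R y ^ (1 + 2 / (d : ℝ)))
    · rw [← integral_const_mul]
      rw [← ofReal_integral_eq_lintegral_ofReal (hi.const_mul _)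
        (Filter.Eventually.of_forall fun y => mul_nonneg hK (Real.rpow_nonneg (hR0 y) _))] at hint
      exact (ENNReal.ofReal_le_ofReal_iff hTn).1 hint
    · rw [integral_undef hi, mul_zero]
      exact hTn
  exact sub_le_iff_le_add.2 hfin

end Pool.Agent.W819.Kin
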