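import Pool.Agent.W564.MY.Defs

/-! The bathtub principle with the semiclassical constant. -/

set_option autoImplicit false

noncomputable section

namespace Pool.Agent.W819.Kin

open MeasureTheory Filter Topology
open scoped ENNReal ComplexConjugate Pointwise
open Pool.Agent.W564.MY

variable {d : ℕ}

lemma ball_lt_top : volume {x : E d | ∑ i, x i ^ 2 < 1} < ⊤ := by
  refine lt_of_le_of_lt (measure_mono (t := Metric.closedBall (0 : E d) 1) ?_)
    (isCompact_closedBall _ _).measure_lt_top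
  intro x hx
  rw [mem_closedBall_zero_iff, pi_norm_le_iff_of_nonneg zero_le_one]
  intro i
  rw [Real.norm_eq_abs]
  have h1 : x i ^ 2 ≤ ∑ j, x j ^ 2 :=
    Finset.single_le_sum (f := fun j => x j ^ 2) (fun j _ => sq_nonneg _) (Finset.mem_univ i)
  have h2 : x i ^ 2 < 1 := lt_of_le_of_lt h1 hx
  rw [← Real.sqrt_sq_eq_abs]
  rw [Real.sqrt_le_one]
  exact h2.le

lemma ballVol_pos : 0 < ballVol d := by
  unfold ballVol
  rw [ENNReal.toReal_pos_iff]
  refine ⟨?_, ball_lt_top⟩
  have ho : IsOpen {x : E d | ∑ i, x i ^ 2 < 1} := isOpen_lt (by fun_prop) (by fun_prop)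
  exact ho.measure_pos _ ⟨0, by simp⟩

lemma vol_sub (s : ℝ) (hs : 0 < s) :
    volume {x : E d | ∑ i, x i ^ 2 < s} = ENNReal.ofReal (ballVol d * s ^ ((d : ℝ) / 2)) := by
  have h1 : {x : E d | ∑ i, x i ^ 2 < s} = Real.sqrt s • {x : E d | ∑ i, x i ^ 2 < 1} := by
    have hs' : Real.sqrt s ≠ 0 := (Real.sqrt_pos.2 hs).ne'
    ext x
    rw [Set.mem_smul_set_iff_inv_smul_mem₀ hs']
    simp only [Set.mem_ofPred_eq, Pi.smul_apply, smul_eq_mul, mul_pow, inv_pow,
      Real.sq_sqrt hs.le, ← Finset.mul_sum]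
    rw [inv_mul_lt_iff₀ hs, mul_one]
  rw [h1, Measure.addHaar_smul]
  have h2 : Module.finrank ℝ (E d) = d := by simp [E]
  have h3 : volume {x : E d | ∑ i, x i ^ 2 < 1} = ENNReal.ofReal (ballVol d) := by
    unfold ballVol
    rw [ENNReal.ofReal_toReal ball_lt_top.ne]
  rw [h2, h3, ← ENNReal.ofReal_mul (abs_nonneg _)]
  congr 1
  rw [abs_of_nonneg (by positivity), mul_comm, Real.sqrt_eq_rpow, ← Real.rpow_natCast,
    ← Real.rpow_mul hs.le]
  congr 2
  ring

lemma layer (c : ℝ) :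
    ∫⁻ s in Set.Ioi (0 : ℝ), (if s ≤ c then (1 : ℝ≥0∞) else 0) = ENNReal.ofReal c := by
  have h1 : ∀ s : ℝ, (if s ≤ c then (1 : ℝ≥0∞) else 0) =
      (Set.Iic c).indicator (fun _ => (1 : ℝ≥0∞)) s := by
    intro s
    simp [Set.indicator]
  simp_rw [h1]
  rw [lintegral_indicator measurableSet_Iic, setLIntegral_const, one_mul,
    Measure.restrict_apply measurableSet_Iic]
  have h2 : Set.Iic c ∩ Set.Ioi 0 = Set.Ioc 0 c := by
    ext s
    simp [and_comm]
  rw [h2, Real.volume_Ioc, sub_zero]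

theorem bathtub (hd : 1 ≤ d) (m : E d → ℝ≥0∞) (hm : AEMeasurable m) (h1 : ∀ p, m p ≤ 1)
    (r : ℝ) (hr : 0 ≤ r) (hmr : ∫⁻ p, m p = ENNReal.ofReal r) :
    ENNReal.ofReal (Kcl d * r ^ (1 + 2 / (d : ℝ))) ≤
      ∫⁻ p : E d, ENNReal.ofReal (4 * Real.pi ^ 2 * ∑ j, p j ^ 2) * m p := by
  have hd' : (0 : ℝ) < d := by exact_mod_cast hd
  set V := ballVol d with hV
  have hVpos : 0 < V := ballVol_pos
  set S : ℝ := (r / V) ^ (2 / (d : ℝ)) with hS
  have hS0 : 0 ≤ S := by positivity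
  -- layer cake
  have e1 : ∫⁻ p : E d, ENNReal.ofReal (∑ j, p j ^ 2) * m p =
      ∫⁻ s in Set.Ioi (0 : ℝ), ∫⁻ p : E d, (if s ≤ ∑ j, p j ^ 2 then (1 : ℝ≥0∞) else 0) * m p := by
    rw [lintegral_lintegral_swap]
    · refine lintegral_congr fun p => ?_
      rw [lintegral_mul_const _ (Measurable.ite measurableSet_Iic measurable_const measurable_const),
        layer]
    · refine AEMeasurable.mul ?_ hm.comp_snd
      refine (Measurable.ite ?_ measurable_const measurable_const).aemeasurable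
      exact measurableSet_le measurable_fst (by fun_prop)
  have e2 : ∀ s : ℝ, 0 < s → ENNReal.ofReal (r - V * s ^ ((d : ℝ) / 2)) ≤
      ∫⁻ p : E d, (if s ≤ ∑ j, p j ^ 2 then (1 : ℝ≥0∞) else 0) * m p := by
    intro s hs
    have hms : MeasurableSet {x : E d | ∑ i, x i ^ 2 < s} :=
      (isOpen_lt (by fun_prop) (by fun_prop)).measurableSet
    have a1 : ∫⁻ p, m p = (∫⁻ p in {x : E d | ∑ i, x i ^ 2 < s}, m p) +
        ∫⁻ p in {x : E d | ∑ i, x i ^ 2 < s}ᶜ, m p :=
      (lintegral_add_compl (μ := volume) m hms).symm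
    have a2 : ∫⁻ p in {x : E d | ∑ i, x i ^ 2 < s}, m p ≤
        ENNReal.ofReal (V * s ^ ((d : ℝ) / 2)) := by
      calc ∫⁻ p in {x : E d | ∑ i, x i ^ 2 < s}, m p
          ≤ ∫⁻ p in {x : E d | ∑ i, x i ^ 2 < s}, 1 := lintegral_mono fun p => h1 p
        _ = _ := by rw [setLIntegral_one, vol_sub s hs]
    have a3 : ∫⁻ p : E d, (if s ≤ ∑ j, p j ^ 2 then (1 : ℝ≥0∞) else 0) * m p =
        ∫⁻ p in {x : E d | ∑ i, x i ^ 2 < s}ᶜ, m p := by
      rw [← lintegral_indicator hms.compl]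
      refine lintegral_congr fun p => ?_
      simp only [Set.indicator, Set.mem_compl_iff, Set.mem_ofPred_eq, not_lt]
      split_ifs <;> simp
    rw [a3, ENNReal.ofReal_sub _ (by positivity), tsub_le_iff_left, ← hmr, a1]
    exact add_le_add_left a2 _
  have e3 : ENNReal.ofReal (r * S * (d / (d + 2))) ≤
      ∫⁻ s in Set.Ioi (0 : ℝ), ENNReal.ofReal (r - V * s ^ ((d : ℝ) / 2)) := by
    have hVS : V * S ^ ((d : ℝ) / 2) = r := by
      rw [hS, ← Real.rpow_mul (by positivity)]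
      have : 2 / (d : ℝ) * (d / 2) = 1 := by field_simp
      rw [this, Real.rpow_one]
      field_simp
    have b1 : ∫ s in (0 : ℝ)..S, (r - V * s ^ ((d : ℝ) / 2)) = r * S * (d / (d + 2)) := by
      rw [intervalIntegral.integral_sub (by simp)
        ((intervalIntegral.intervalIntegrable_rpow' (by linarith [hd', show (0:ℝ) ≤ (d:ℝ)/2 by positivity])).const_mul _),
        intervalIntegral.integral_const, intervalIntegral.integral_const_mul,
        integral_rpow (Or.inl (by linarith [hd', show (0:ℝ) ≤ (d:ℝ)/2 by positivity]))]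
      rw [Real.zero_rpow (by positivity), Real.rpow_add_one' hS0 (by positivity)]
      simp only [sub_zero, smul_eq_mul]
      have : V * (S ^ ((d : ℝ) / 2) * S / ((d : ℝ) / 2 + 1)) = (V * S ^ ((d : ℝ) / 2)) * S / ((d : ℝ) / 2 + 1) := by
        ring
      rw [this, hVS]
      field_simp
      ring
    rw [← b1, intervalIntegral.integral_of_le hS0]
    have b2 : ∀ s ∈ Set.Ioc (0 : ℝ) S, 0 ≤ r - V * s ^ ((d : ℝ) / 2) := by
      intro s hs
      have : V * s ^ ((d : ℝ) / 2) ≤ V * S ^ ((d : ℝ) / 2) := by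
        gcongr
        · exact hs.1.le
        · exact hs.2
      linarith
    rw [ofReal_integral_eq_lintegral_ofReal]
    · exact lintegral_mono_set Set.Ioc_subset_Ioi_self
    · have := (intervalIntegral.intervalIntegrable_rpow' (a := 0) (b := S) (r := (d : ℝ) / 2)
        (by linarith [hd', show (0:ℝ) ≤ (d:ℝ)/2 by positivity])).const_mul V
      have h3 := (intervalIntegrable_const (c := r) (a := (0 : ℝ)) (b := S)
        (μ := volume)).sub this
      exact (intervalIntegrable_iff_integrableOn_Ioc_of_le hS0).1 h3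
    · exact (ae_restrict_iff' measurableSet_Ioc).2 (Filter.Eventually.of_forall b2)
  have e4 : ENNReal.ofReal (r * S * (d / (d + 2))) ≤
      ∫⁻ p : E d, ENNReal.ofReal (∑ j, p j ^ 2) * m p := by
    refine e3.trans ?_
    rw [e1]
    refine setLIntegral_mono' measurableSet_Ioi ?_
    intro s hs
    exact e2 s hs
  have e5 : ∫⁻ p : E d, ENNReal.ofReal (4 * Real.pi ^ 2 * ∑ j, p j ^ 2) * m p =
      ENNReal.ofReal (4 * Real.pi ^ 2) * ∫⁻ p : E d, ENNReal.ofReal (∑ j, p j ^ 2) * m p := by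
    rw [← lintegral_const_mul' _ _ ENNReal.ofReal_ne_top]
    refine lintegral_congr fun p => ?_
    rw [ENNReal.ofReal_mul (by positivity), mul_assoc]
  have e6 : Kcl d * r ^ (1 + 2 / (d : ℝ)) = 4 * Real.pi ^ 2 * (r * S * (d / (d + 2))) := by
    rw [hS, Real.div_rpow hr hVpos.le, Kcl, neg_div, Real.rpow_neg hVpos.le]
    rcases hr.eq_or_lt with h0 | h0
    · rw [← h0, Real.zero_rpow (by positivity)]
      simp
    · rw [Real.rpow_add h0, Real.rpow_one]
      field_simp
  rw [e5, e6, ENNReal.ofReal_mul (by positivity)]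
  gcongr

end Pool.Agent.W819.Kin
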