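import Pool.Agent.W819.Kin.Mom

/-! Lower bound for a fixed position of the coherent state. -/

set_option autoImplicit false

noncomputable section

namespace Pool.Agent.W819.Kin

open MeasureTheory Filter Topology
open scoped ENNReal ComplexConjugate
open Pool.Agent.W564.MY

variable {N d : ℕ}

lemma lint_sq_eq {α : Type*} {m : MeasurableSpace α} {μ : Measure α} {f : α → ℂ}
    (hf : MemLp f 2 μ) : ∫⁻ x, ‖f x‖ₑ ^ 2 ∂μ = ENNReal.ofReal (∫ x, ‖f x‖ ^ 2 ∂μ) := by
  have h1 := (memLp_two_iff_integrable_sq_norm hf.1).1 hf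
  rw [ofReal_integral_eq_lintegral_ofReal h1 (Filter.Eventually.of_forall fun x => sq_nonneg _)]
  refine lintegral_congr fun x => ?_
  rw [ENNReal.ofReal_pow (norm_nonneg _), ofReal_norm]

lemma ph_shift (p t : E d) (c : Fin d) (τ : ℝ) :
    ph p (t + τ • Pi.single c (1 : ℝ)) =
      ph p t * Complex.exp ((((-(2 * Real.pi * p c) * τ : ℝ)) : ℂ) * Complex.I) := by
  unfold ph
  rw [← Complex.exp_add]
  congr 1
  have : ∑ j, p j * (t + τ • (Pi.single c (1 : ℝ) : E d)) j = (∑ j, p j * t j) + p c * τ := by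
    simp only [Pi.add_apply, Pi.smul_apply, smul_eq_mul, mul_add, Finset.sum_add_distrib]
    congr 1
    rw [Finset.sum_eq_single c]
    · simp
    · intro b _ hb
      simp [Pi.single_eq_of_ne hb]
    · simp
  rw [this]
  push_cast
  ring

lemma ph_contDiff (p : E d) : ContDiff ℝ ((⊤ : ℕ∞) : WithTop ℕ∞) (ph p) := by
  unfold ph
  have h1 : ContDiff ℝ ((⊤ : ℕ∞) : WithTop ℕ∞)
      (fun t : E d => -(2 * Real.pi * ∑ j, p j * t j)) := by
    refine ContDiff.neg (ContDiff.mul contDiff_const (ContDiff.sum fun j _ => ?_))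
    exact contDiff_const.mul (contDiff_apply ℝ ℝ j)
  exact ((Complex.ofRealCLM.contDiff.comp h1).mul contDiff_const).cexp

lemma q_contDiff (p : E d) {a : E d → ℝ} (ha : ContDiff ℝ ((⊤ : ℕ∞) : WithTop ℕ∞) a) :
    ContDiff ℝ ((⊤ : ℕ∞) : WithTop ℕ∞) (fun t => ph p t * ((a t : ℝ) : ℂ)) :=
  (ph_contDiff p).mul (Complex.ofRealCLM.contDiff.comp ha)

lemma fderiv_q (p t : E d) (c : Fin d) {a : E d → ℝ}
    (ha : ContDiff ℝ ((⊤ : ℕ∞) : WithTop ℕ∞) a) :
    fderiv ℝ (fun t => ph p t * ((a t : ℝ) : ℂ)) t (Pi.single c (1 : ℝ)) =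
      ph p t * ((fderiv ℝ a t (Pi.single c (1 : ℝ)) : ℝ) : ℂ) -
        ((2 * Real.pi * p c : ℝ) : ℂ) * Complex.I * (ph p t * ((a t : ℝ) : ℂ)) := by
  have hd : DifferentiableAt ℝ (fun t => ph p t * ((a t : ℝ) : ℂ)) t :=
    ((q_contDiff p ha).differentiable (by simp)) t
  have hda : DifferentiableAt ℝ a t := (ha.differentiable (by simp)) t
  rw [← hd.lineDeriv_eq_fderiv]
  unfold lineDeriv
  have h1 : HasDerivAt (fun τ : ℝ => a (t + τ • (Pi.single c (1 : ℝ) : E d)))
      (fderiv ℝ a t (Pi.single c (1 : ℝ))) 0 := by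
    have := hda.hasFDerivAt.hasLineDerivAt (Pi.single c (1 : ℝ) : E d)
    exact this
  have h2 : HasDerivAt (fun τ : ℝ => Complex.exp ((((-(2 * Real.pi * p c) * τ : ℝ)) : ℂ) *
      Complex.I)) (((-(2 * Real.pi * p c) : ℝ) : ℂ) * Complex.I) 0 := by
    have h3 : HasDerivAt (fun τ : ℝ => (((-(2 * Real.pi * p c) * τ : ℝ)) : ℂ) * Complex.I)
        (((-(2 * Real.pi * p c) * 1 : ℝ) : ℂ) * Complex.I) 0 :=
      (((hasDerivAt_id (0 : ℝ)).const_mul (-(2 * Real.pi * p c))).ofReal_comp).mul_const _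
    have h4 := h3.cexp
    simpa using h4
  have h5 := (h2.const_mul (ph p t)).mul h1.ofReal_comp
  have e : (fun τ : ℝ => ph p (t + τ • (Pi.single c (1 : ℝ) : E d)) *
      ((a (t + τ • (Pi.single c (1 : ℝ) : E d)) : ℝ) : ℂ)) = fun τ : ℝ =>
      (ph p t * Complex.exp ((((-(2 * Real.pi * p c) * τ : ℝ)) : ℂ) * Complex.I)) *
      ((a (t + τ • (Pi.single c (1 : ℝ) : E d)) : ℝ) : ℂ) := by
    funext τ
    rw [ph_shift]
  rw [e]
  refine h5.deriv.trans ?_
  simp
  ring

lemma integrable_of_supp {f : E d → ℂ} (hf : MemLp f 2) (R : ℝ) (hR : ∀ t, R < ‖t‖ → f t = 0) :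
    Integrable f := by
  have h1 : MemLp ((Metric.closedBall (0 : E d) R).indicator (fun _ => (1 : ℂ))) 2 volume :=
    memLp_indicator_const 2 measurableSet_closedBall (1 : ℂ)
      (Or.inr (isCompact_closedBall _ _).measure_lt_top.ne)
  have h2 := integrable_mul2 h1 hf
  refine h2.congr (Filter.Eventually.of_forall fun t => ?_)
  simp only [Set.indicator, mem_closedBall_zero_iff]
  split_ifs with h
  · rw [one_mul]
  · rw [hR t (not_le.1 h), mul_zero]

/-- Plancherel for the kernel functions -/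
lemma planch_ker (i : Fin N) {A : E d → ℂ} (hA : MemLp A 2) {W : (Fin N → E d) → ℂ}
    (hW : MemLp W 2) (R : ℝ) (hR : ∀ x, R < ‖x i‖ → W x = 0) :
    ∫⁻ p : E d, ∫⁻ x : Fin N → E d,
        ‖∫ t, ph p t * (A (x i) * W (Function.update x i t))‖ₑ ^ 2 =
      (∫⁻ t, ‖A t‖ₑ ^ 2) * ∫⁻ x, ‖W x‖ₑ ^ 2 := by
  have hK := memLp_ker i hA hW
  have h2 := slice_memLp hK
  have h1 : ∀ᵐ x : Fin N → E d,
      Integrable (fun t => A (x i) * W (Function.update x i t)) := by
    filter_upwards [h2] with x hx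
    refine integrable_of_supp hx R (fun t ht => ?_)
    rw [hR _ (by simpa using ht), mul_zero]
  rw [planch_prod (fun z : (Fin N → E d) × E d => A (z.1 i) * W (Function.update z.1 i z.2))
    hK.1 h1 h2]
  have e1 : ∫⁻ x : Fin N → E d, ∫⁻ t : E d, ‖A (x i) * W (Function.update x i t)‖ₑ ^ 2 =
      ∫⁻ z, (fun z : (Fin N → E d) × E d => ‖A z.2 * W z.1‖ₑ ^ 2)
        (Function.update z.1 i z.2, z.1 i)
        ∂((volume : Measure (Fin N → E d)).prod (volume : Measure (E d))) := by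
    rw [lintegral_prod _ (hK.1.enorm.pow_const 2)]
  rw [e1, lint_sw i (fun z : (Fin N → E d) × E d => ‖A z.2 * W z.1‖ₑ ^ 2), lintegral_prod _ ((memLp_prod A W hA hW).1.enorm.pow_const 2)]
  have hA' := (memLp_two_iff hA.1).1 hA
  simp only [enorm_mul, mul_pow]
  have e2 : ∀ x : Fin N → E d, ∫⁻ t : E d, ‖A t‖ₑ ^ 2 * ‖W x‖ₑ ^ 2 =
      (∫⁻ t : E d, ‖A t‖ₑ ^ 2) * ‖W x‖ₑ ^ 2 := fun x => by
    rw [lintegral_mul_const'' _ (hA.1.enorm.pow_const 2)]
  simp only [e2]
  rw [lintegral_const_mul' _ _ hA'.ne]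

/-- bounded compactly supported multiplier -/
lemma memLp_mult (i : Fin N) {A : E d → ℂ} (hA : Continuous A) (hAc : HasCompactSupport A)
    {f : (Fin N → E d) → ℂ} (hf : MemLp f 2) : MemLp (fun x => A (x i) * f x) 2 := by
  obtain ⟨C, hC⟩ := hAc.exists_bound_of_continuous hA
  have hm : AEStronglyMeasurable (fun x : Fin N → E d => A (x i) * f x) volume :=
    (hA.comp (continuous_apply i)).aestronglyMeasurable.mul hf.1
  refine (hf.const_mul (C : ℂ)).mono hm (Filter.Eventually.of_forall fun x => ?_)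
  simp only [norm_mul, Complex.norm_real, Real.norm_eq_abs]
  have := hC (x i)
  gcongr
  exact this.trans (le_abs_self C)

/-- the coherent state density -/
def Mp (i : Fin N) (A : E d → ℂ) (Ψ : (Fin N → E d) → ℂ) (p : E d) : ℝ≥0∞ :=
  ∫⁻ x : Fin N → E d, ‖∫ t, ph p t * (A (x i) * (A t * Ψ (Function.update x i t)))‖ₑ ^ 2

lemma Mp_eq (i : Fin N) (A : E d → ℂ) (Ψ : (Fin N → E d) → ℂ) (p : E d) :
    Mp i A Ψ p = ∫⁻ x : Fin N → E d, ‖∫ t, ph p t * (A (x i) *
      (fun x : Fin N → E d => A (x i) * Ψ x) (Function.update x i t))‖ₑ ^ 2 := by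
  unfold Mp
  simp only [Function.update_self]

lemma Mp_aem (i : Fin N) {A : E d → ℂ} (hA : Continuous A) (hAc : HasCompactSupport A)
    {Ψ : (Fin N → E d) → ℂ} (hΨ : MemLp Ψ 2) : AEMeasurable (Mp i A Ψ) := by
  have hA2 : MemLp A 2 := hA.memLp_of_hasCompactSupport hAc
  have h1 := planch_aem _ (memLp_ker i hA2 (memLp_mult i hA hAc hΨ)).1
  refine h1.congr (Filter.Eventually.of_forall fun p => ?_)
  simp only
  rw [Mp_eq]

lemma Mp_total (i : Fin N) {A : E d → ℂ} (hA : Continuous A) (hAc : HasCompactSupport A)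
    (hA1 : ∫⁻ t, ‖A t‖ₑ ^ 2 = 1) {Ψ : (Fin N → E d) → ℂ} (hΨ : MemLp Ψ 2) :
    ∫⁻ p, Mp i A Ψ p = ∫⁻ x : Fin N → E d, ‖A (x i) * Ψ x‖ₑ ^ 2 := by
  have hA2 : MemLp A 2 := hA.memLp_of_hasCompactSupport hAc
  obtain ⟨R, hR⟩ := bound_of_hcs hAc
  simp only [Mp_eq]
  rw [planch_ker i hA2 (memLp_mult i hA hAc hΨ) R ?_, hA1, one_mul]
  intro x hx
  rw [hR _ hx, zero_mul]

lemma Mp_pauli {A : E d → ℂ} (hA : Continuous A) (hAc : HasCompactSupport A)
    (hA1 : ∫ t, A t * conj (A t) = 1) {Ψ : (Fin N → E d) → ℂ} (hΨ : MemLp Ψ 2)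
    (h1 : ∫ x, ‖Ψ x‖ ^ 2 = 1) (ha : Antisym Ψ) (p : E d) : ∑ i : Fin N, Mp i A Ψ p ≤ 1 := by
  have hq : MemLp (fun t => ph p t * A t) 2 :=
    ((ph_cont_right p).mul hA).memLp_of_hasCompactSupport hAc.mul_left
  have hq1 : ∫ t, (ph p t * A t) * conj (ph p t * A t) = 1 := by
    rw [← hA1]
    refine integral_congr_ae (Filter.Eventually.of_forall fun t => ?_)
    simp only [map_mul]
    have : ph p t * conj (ph p t) = 1 := by
      rw [Complex.mul_conj, Complex.normSq_eq_norm_sq, norm_ph]; norm_num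
    calc ph p t * A t * (conj (ph p t) * conj (A t))
        = (ph p t * conj (ph p t)) * (A t * conj (A t)) := by ring
      _ = _ := by rw [this, one_mul]
  have h2 := pauli hq hq1 hΨ h1 ha
  have h3 : ∀ i : Fin N, Mp i A Ψ p =
      ENNReal.ofReal (∫ x, ‖Pr i (fun t => ph p t * A t) Ψ x‖ ^ 2) := by
    intro i
    rw [← lint_sq_eq (memLp_Pr i hq hΨ)]
    unfold Mp
    refine lintegral_congr fun x => ?_
    congr 1
    have e1 : ∫ t, ph p t * (A (x i) * (A t * Ψ (Function.update x i t))) =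
        A (x i) * Fi i (fun t => ph p t * A t) Ψ x := by
      unfold Fi
      rw [← integral_const_mul]
      refine integral_congr_ae (Filter.Eventually.of_forall fun t => ?_)
      simp only
      ring
    rw [e1, Pr, enorm_mul, enorm_mul]
    congr 1
    rw [← ofReal_norm, ← ofReal_norm]
    congr 1
    rw [RCLike.norm_conj, norm_mul, norm_ph, one_mul]
  simp only [h3]
  rw [← ENNReal.ofReal_sum_of_nonneg (fun i _ => integral_nonneg fun x => sq_nonneg _)]
  exact ENNReal.ofReal_le_one.2 h2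

/-- kinetic energy of the coherent state density -/
lemma Mp_kin (i : Fin N) (c : Fin d) {a : E d → ℝ} (ha : ContDiff ℝ ((⊤ : ℕ∞) : WithTop ℕ∞) a)
    (hac : HasCompactSupport a) (ha1 : ∫⁻ t, ‖((a t : ℝ) : ℂ)‖ₑ ^ 2 = 1)
    {Ψ G : (Fin N → E d) → ℂ} (hΨ : MemLp Ψ 2) (hG : MemLp G 2)
    (hW : WeakDir (Pi.single i (Pi.single c (1 : ℝ))) Ψ G) :
    ∫⁻ p : E d, ENNReal.ofReal (4 * Real.pi ^ 2 * p c ^ 2) * Mp i (fun t => ((a t : ℝ) : ℂ)) Ψ p =
      ∫⁻ x : Fin N → E d, ‖((a (x i) : ℝ) : ℂ) * G x +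
        ((fderiv ℝ a (x i) (Pi.single c (1 : ℝ)) : ℝ) : ℂ) * Ψ x‖ₑ ^ 2 := by
  set A : E d → ℂ := fun t => ((a t : ℝ) : ℂ) with hAdef
  set A' : E d → ℂ := fun t => ((fderiv ℝ a t (Pi.single c (1 : ℝ)) : ℝ) : ℂ) with hA'def
  have hA : Continuous A := Complex.continuous_ofReal.comp ha.continuous
  have hAc : HasCompactSupport A :=
    hac.comp_left (g := fun y : ℝ => (y : ℂ)) Complex.ofReal_zero
  have hA' : Continuous A' := Complex.continuous_ofReal.comp
    ((ha.continuous_fderiv (by simp)).clm_apply continuous_const)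
  have hAc' : HasCompactSupport A' :=
    (hac.fderiv_apply (𝕜 := ℝ) _).comp_left (g := fun y : ℝ => (y : ℂ)) Complex.ofReal_zero
  have hA2 : MemLp A 2 := hA.memLp_of_hasCompactSupport hAc
  have hA2' : MemLp A' 2 := hA'.memLp_of_hasCompactSupport hAc'
  obtain ⟨R, hR⟩ := bound_of_hcs hAc
  obtain ⟨R', hR'⟩ := bound_of_hcs hAc'
  have hW1 : MemLp (fun x : Fin N → E d => A (x i) * G x + A' (x i) * Ψ x) 2 :=
    (memLp_mult i hA hAc hG).add (memLp_mult i hA' hAc' hΨ)
  have h1 := planch_ker i hA2 hW1 (max R R') (by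
    intro x hx
    rw [hR _ ((le_max_left _ _).trans_lt hx), hR' _ ((le_max_right _ _).trans_lt hx), zero_mul,
      zero_mul, add_zero])
  rw [ha1, one_mul] at h1
  rw [← h1]
  refine lintegral_congr fun p => ?_
  have hq2 : MemLp (fun t => ph p t * A t) 2 :=
    ((ph_cont_right p).mul hA).memLp_of_hasCompactSupport hAc.mul_left
  have hq3 : MemLp (fun t => ph p t * A' t) 2 :=
    ((ph_cont_right p).mul hA').memLp_of_hasCompactSupport hAc'.mul_left
  unfold Mp
  rw [← lintegral_const_mul' _ _ ENNReal.ofReal_ne_top]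
  refine lintegral_congr_ae ?_
  have hm := mom i c hA2 (q_contDiff p ha) hAc.mul_left hΨ hG hW
  filter_upwards [hm, slice_memLp (memLp_ker i hA2 hΨ), slice_memLp (memLp_ker i hA2 hG)]
    with x hx s1 s2
  have i1 : Integrable (fun s => (ph p s * A s) * (A (x i) * G (Function.update x i s))) :=
    integrable_mul2 hq2 s2
  have i2 : Integrable (fun s => (ph p s * A' s) * (A (x i) * Ψ (Function.update x i s))) :=
    integrable_mul2 hq3 s1
  have i3 : Integrable (fun s => (ph p s * A s) * (A (x i) * Ψ (Function.update x i s))) :=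
    integrable_mul2 hq2 s1
  have e1 : Tq i A (fun t => fderiv ℝ (fun t => ph p t * ((a t : ℝ) : ℂ)) t
      (Pi.single c (1 : ℝ))) Ψ x =
      (∫ s, (ph p s * A' s) * (A (x i) * Ψ (Function.update x i s))) -
        ((2 * Real.pi * p c : ℝ) : ℂ) * Complex.I *
          ∫ s, (ph p s * A s) * (A (x i) * Ψ (Function.update x i s)) := by
    rw [← integral_const_mul, ← integral_sub i2 (i3.const_mul _)]
    unfold Tq
    refine integral_congr_ae (Filter.Eventually.of_forall fun s => ?_)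
    simp only
    rw [fderiv_q p s c ha]
    simp only [hAdef, hA'def]
    ring
  have e2 : ∫ t, ph p t * (A (x i) * (A (Function.update x i t i) * G (Function.update x i t) +
      A' (Function.update x i t i) * Ψ (Function.update x i t))) =
      ((2 * Real.pi * p c : ℝ) : ℂ) * Complex.I *
          ∫ s, ph p s * (A (x i) * (A s * Ψ (Function.update x i s))) := by
    have e3 : ∫ s, ph p s * (A (x i) * (A s * Ψ (Function.update x i s))) =
        ∫ s, (ph p s * A s) * (A (x i) * Ψ (Function.update x i s)) := by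
      refine integral_congr_ae (Filter.Eventually.of_forall fun s => ?_)
      simp only
      ring
    have e4 : ∫ t, ph p t * (A (x i) * (A (Function.update x i t i) * G (Function.update x i t) +
        A' (Function.update x i t i) * Ψ (Function.update x i t))) =
        (∫ s, (ph p s * A s) * (A (x i) * G (Function.update x i s))) +
        ∫ s, (ph p s * A' s) * (A (x i) * Ψ (Function.update x i s)) := by
      rw [← integral_add i1 i2]
      refine integral_congr_ae (Filter.Eventually.of_forall fun s => ?_)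
      simp only [Function.update_self]
      ring
    rw [e1] at hx
    unfold Tq at hx
    rw [e3, e4]
    linear_combination hx
  rw [e2, enorm_mul, mul_pow]
  congr 1
  rw [← ofReal_norm, ← ENNReal.ofReal_pow (norm_nonneg _)]
  congr 1
  rw [norm_mul, Complex.norm_I, mul_one, Complex.norm_real, Real.norm_eq_abs, sq_abs]
  ring

/-- lower bound for a fixed window -/
theorem key (hd : 1 ≤ d) {Ψ : (Fin N → E d) → ℂ} {G : Fin N → Fin d → (Fin N → E d) → ℂ}
    (H : IsH1N Ψ G) (has : Antisym Ψ) (h1 : ∫ x, ‖Ψ x‖ ^ 2 = 1) {a : E d → ℝ}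
    (ha : ContDiff ℝ ((⊤ : ℕ∞) : WithTop ℕ∞) a) (hac : HasCompactSupport a)
    (ha1 : ∫ t, a t ^ 2 = 1) (r : ℝ) (hr : 0 ≤ r)
    (hrr : ∑ i : Fin N, ∫⁻ x : Fin N → E d, ‖((a (x i) : ℝ) : ℂ) * Ψ x‖ₑ ^ 2 =
      ENNReal.ofReal r) :
    ENNReal.ofReal (Kcl d * r ^ (1 + 2 / (d : ℝ))) ≤
      ∑ i : Fin N, ∑ c : Fin d, ∫⁻ x : Fin N → E d, ‖((a (x i) : ℝ) : ℂ) * G i c x +
        ((fderiv ℝ a (x i) (Pi.single c (1 : ℝ)) : ℝ) : ℂ) * Ψ x‖ₑ ^ 2 := by
  obtain ⟨hΨ, hG, hW⟩ := H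
  set A : E d → ℂ := fun t => ((a t : ℝ) : ℂ) with hAdef
  have hA : Continuous A := Complex.continuous_ofReal.comp ha.continuous
  have hAc : HasCompactSupport A :=
    hac.comp_left (g := fun y : ℝ => (y : ℂ)) Complex.ofReal_zero
  have hA2 : MemLp A 2 := hA.memLp_of_hasCompactSupport hAc
  have hnA : ∀ t, ‖A t‖ ^ 2 = a t ^ 2 := fun t => by
    simp only [hAdef, Complex.norm_real, Real.norm_eq_abs, sq_abs]
  have hA1 : ∫⁻ t, ‖A t‖ₑ ^ 2 = 1 := by
    rw [lint_sq_eq hA2]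
    simp only [hnA, ha1, ENNReal.ofReal_one]
  have hA1' : ∫ t, A t * conj (A t) = 1 := by
    have : ∀ t, A t * conj (A t) = ((a t ^ 2 : ℝ) : ℂ) := fun t => by
      rw [Complex.mul_conj, Complex.normSq_eq_norm_sq, hnA]
    simp only [this]
    rw [integral_complex_ofReal, ha1, Complex.ofReal_one]
  have hb := bathtub hd (fun p => ∑ i : Fin N, Mp i A Ψ p)
    (Finset.aemeasurable_fun_sum _ fun i _ => Mp_aem i hA hAc hΨ)
    (fun p => Mp_pauli hA hAc hA1' hΨ h1 has p) r hr (by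
      rw [lintegral_finsetSum' _ (fun i _ => Mp_aem i hA hAc hΨ), ← hrr]
      exact Finset.sum_congr rfl fun i _ => Mp_total i hA hAc hA1 hΨ)
  refine hb.trans (le_of_eq ?_)
  have e1 : ∀ p : E d, ENNReal.ofReal (4 * Real.pi ^ 2 * ∑ j, p j ^ 2) * ∑ i : Fin N, Mp i A Ψ p =
      ∑ i : Fin N, ∑ c : Fin d, ENNReal.ofReal (4 * Real.pi ^ 2 * p c ^ 2) * Mp i A Ψ p := by
    intro p
    rw [Finset.mul_sum]
    refine Finset.sum_congr rfl fun i _ => ?_
    rw [← Finset.sum_mul, Finset.mul_sum, ENNReal.ofReal_sum_of_nonneg]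
    intro j _
    positivity
  have hmeas : ∀ (i : Fin N) (c : Fin d),
      AEMeasurable (fun p : E d => ENNReal.ofReal (4 * Real.pi ^ 2 * p c ^ 2) * Mp i A Ψ p) := by
    intro i c
    refine AEMeasurable.mul ?_ (Mp_aem i hA hAc hΨ)
    exact (by fun_prop : Measurable fun p : E d => ENNReal.ofReal (4 * Real.pi ^ 2 * p c ^ 2)).aemeasurable
  simp only [e1]
  rw [lintegral_finsetSum' _ (fun i _ => Finset.aemeasurable_fun_sum _ fun c _ => hmeas i c)]
  refine Finset.sum_congr rfl fun i _ => ?_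
  rw [lintegral_finsetSum' _ (fun c _ => hmeas i c)]
  refine Finset.sum_congr rfl fun c _ => ?_
  exact Mp_kin i c ha hac hA1 hΨ (hG i c) (hW i c)

end Pool.Agent.W819.Kin
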