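import Pool.Agent.W819.Kin.Swap

/-! Basic facts on square integrable functions. -/

set_option autoImplicit false

noncomputable section

namespace Pool.Agent.W819.Kin

open MeasureTheory Filter Topology
open scoped ENNReal ComplexConjugate
open Pool.Agent.W564.MY

lemma memLp_two_iff {α : Type*} {m : MeasurableSpace α} {μ : Measure α} {f : α → ℂ}
    (hf : AEStronglyMeasurable f μ) : MemLp f 2 μ ↔ ∫⁻ x, ‖f x‖ₑ ^ 2 ∂μ < ⊤ := by
  constructor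
  · intro h
    have := lintegral_rpow_enorm_lt_top_of_eLpNorm_lt_top (p := 2) (by norm_num) (by norm_num) h.2
    simpa using this
  · intro h
    refine ⟨hf, ?_⟩
    rw [eLpNorm_lt_top_iff_lintegral_rpow_enorm_lt_top (by norm_num) (by norm_num)]
    simpa using h

lemma integrable_mul2 {α : Type*} {m : MeasurableSpace α} {μ : Measure α} {f g : α → ℂ}
    (hf : MemLp f 2 μ) (hg : MemLp g 2 μ) : Integrable (fun x => f x * g x) μ :=
  MemLp.integrable_mul hf hg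

lemma memLp_conj {α : Type*} {m : MeasurableSpace α} {μ : Measure α} {f : α → ℂ}
    (hf : MemLp f 2 μ) : MemLp (fun x => conj (f x)) 2 μ := hf.star

/-- product of `L²` functions of the two variables -/
lemma memLp_prod' {α β : Type*} {mα : MeasurableSpace α} {mβ : MeasurableSpace β} {μ : Measure α}
    {ν : Measure β} [SFinite μ] [SFinite ν] {a : β → ℂ} {f : α → ℂ} (ha : MemLp a 2 ν)
    (hf : MemLp f 2 μ) : MemLp (fun z : α × β => a z.2 * f z.1) 2 (μ.prod ν) := by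
  have hm : AEStronglyMeasurable (fun z : α × β => a z.2 * f z.1) (μ.prod ν) :=
    (ha.1.comp_snd).mul (hf.1.comp_fst)
  rw [memLp_two_iff_integrable_sq_norm hm]
  have h1 := (memLp_two_iff_integrable_sq_norm ha.1).1 ha
  have h2 := (memLp_two_iff_integrable_sq_norm hf.1).1 hf
  have h3 := h2.mul_prod h1
  refine h3.congr (Filter.Eventually.of_forall fun z => ?_)
  simp only [norm_mul]
  ring

/-- Cauchy-Schwarz -/
lemma cs {α : Type*} {m : MeasurableSpace α} {μ : Measure α} {h k : α → ℂ}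
    (hh : AEStronglyMeasurable h μ) (hk : AEStronglyMeasurable k μ) :
    ‖∫ t, h t * k t ∂μ‖ₑ ^ 2 ≤ (∫⁻ t, ‖h t‖ₑ ^ 2 ∂μ) * ∫⁻ t, ‖k t‖ₑ ^ 2 ∂μ := by
  have h1 : ‖∫ t, h t * k t ∂μ‖ₑ ≤ ∫⁻ t, ((fun t => ‖h t‖ₑ) * fun t => ‖k t‖ₑ) t ∂μ := by
    refine (enorm_integral_le_lintegral_enorm _).trans (le_of_eq ?_)
    refine lintegral_congr fun t => ?_
    rw [enorm_mul]; rfl
  have h2 := ENNReal.lintegral_mul_le_Lp_mul_Lq μ (Real.HolderConjugate.two_two) hh.enorm hk.enorm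
  have h3 := h1.trans h2
  calc ‖∫ t, h t * k t ∂μ‖ₑ ^ 2 ≤ ((∫⁻ a, ‖h a‖ₑ ^ (2 : ℝ) ∂μ) ^ (1 / (2 : ℝ)) *
        (∫⁻ a, ‖k a‖ₑ ^ (2 : ℝ) ∂μ) ^ (1 / (2 : ℝ))) ^ 2 := by gcongr
    _ = _ := by
      rw [mul_pow]
      have h4 : ∀ y : ℝ≥0∞, (y ^ (1 / (2 : ℝ))) ^ 2 = y := by
        intro y
        rw [← ENNReal.rpow_natCast, ← ENNReal.rpow_mul]
        norm_num
      rw [h4, h4]
      simp

lemma slice_memLp {α β : Type*} {mα : MeasurableSpace α} {mβ : MeasurableSpace β} {μ : Measure α}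
    {ν : Measure β} [SFinite μ] [SFinite ν] {K : α × β → ℂ} (hK : MemLp K 2 (μ.prod ν)) :
    ∀ᵐ x ∂μ, MemLp (fun t => K (x, t)) 2 ν := by
  have h1 := (memLp_two_iff hK.1).1 hK
  rw [lintegral_prod _ (hK.1.enorm.pow_const 2)] at h1
  have h2 := ae_lt_top' ((hK.1.enorm.pow_const 2).lintegral_prod_right') h1.ne
  filter_upwards [h2, hK.1.prodMk_left] with x hx hx2
  exact (memLp_two_iff hx2).2 hx

lemma memLp_int {α β : Type*} {mα : MeasurableSpace α} {mβ : MeasurableSpace β} {μ : Measure α}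
    {ν : Measure β} [SFinite μ] [SFinite ν] {h : β → ℂ} (hh : MemLp h 2 ν) {K : α × β → ℂ}
    (hK : MemLp K 2 (μ.prod ν)) : MemLp (fun x => ∫ t, h t * K (x, t) ∂ν) 2 μ := by
  have hm : AEStronglyMeasurable (fun x => ∫ t, h t * K (x, t) ∂ν) μ := by
    have h1 : AEStronglyMeasurable (fun z : α × β => h z.2 * K z) (μ.prod ν) :=
      (hh.1.comp_snd).mul hK.1
    exact h1.integral_prod_right'
  rw [memLp_two_iff hm]
  have h1 := (memLp_two_iff hK.1).1 hK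
  rw [lintegral_prod _ (hK.1.enorm.pow_const 2)] at h1
  have h2 := (memLp_two_iff hh.1).1 hh
  calc ∫⁻ x, ‖∫ t, h t * K (x, t) ∂ν‖ₑ ^ 2 ∂μ
      ≤ ∫⁻ x, (∫⁻ t, ‖h t‖ₑ ^ 2 ∂ν) * ∫⁻ t, ‖K (x, t)‖ₑ ^ 2 ∂ν ∂μ := by
        refine lintegral_mono_ae ?_
        filter_upwards [hK.1.prodMk_left] with x hx
        exact cs hh.1 hx
    _ = (∫⁻ t, ‖h t‖ₑ ^ 2 ∂ν) * ∫⁻ x, ∫⁻ t, ‖K (x, t)‖ₑ ^ 2 ∂ν ∂μ := by
        rw [lintegral_const_mul' _ _ h2.ne]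
    _ < ⊤ := ENNReal.mul_lt_top h2 h1

/-- Bessel type inequality -/
lemma bessel {H : Type*} [NormedAddCommGroup H] [InnerProductSpace ℂ H] {ι : Type*} [Fintype ι]
    (v : ι → H) (ψ : H) (ho : ∀ i j, i ≠ j → inner ℂ (v i) (v j) = 0)
    (hi : ∀ i, inner ℂ (v i) ψ = ((‖v i‖ ^ 2 : ℝ) : ℂ)) : ∑ i, ‖v i‖ ^ 2 ≤ ‖ψ‖ ^ 2 := by
  classical
  have h1 : ‖ψ - ∑ i, v i‖ ^ 2 = ‖ψ‖ ^ 2 - 2 * (inner ℂ ψ (∑ i, v i)).re + ‖∑ i, v i‖ ^ 2 := by
    exact @norm_sub_sq ℂ H _ _ _ ψ (∑ i, v i)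
  have h2 : inner ℂ ψ (∑ i, v i) = ((∑ i, ‖v i‖ ^ 2 : ℝ) : ℂ) := by
    rw [inner_sum]
    push_cast
    refine Finset.sum_congr rfl fun i _ => ?_
    rw [← inner_conj_symm, hi i]
    simp
  have h3 : ‖∑ i, v i‖ ^ 2 = ∑ i, ‖v i‖ ^ 2 := by
    have h4 : inner ℂ (∑ i, v i) (∑ i, v i) = ((∑ i, ‖v i‖ ^ 2 : ℝ) : ℂ) := by
      rw [sum_inner]
      push_cast
      refine Finset.sum_congr rfl fun i _ => ?_
      rw [inner_sum, Finset.sum_eq_single i]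
      · rw [inner_self_eq_norm_sq_to_K]; simp
      · intro j _ hj
        exact ho i j (Ne.symm hj)
      · simp
    rw [inner_self_eq_norm_sq_to_K] at h4
    have h5 : ((‖∑ i, v i‖ ^ 2 : ℝ) : ℂ) = ((∑ i, ‖v i‖ ^ 2 : ℝ) : ℂ) := by
      rw [← h4]; simp
    exact_mod_cast h5
  rw [h2, h3, Complex.ofReal_re] at h1
  nlinarith [sq_nonneg ‖ψ - ∑ i, v i‖]

end Pool.Agent.W819.Kin
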