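import Pool.Agent.W819.Kin.L2

/-! The Pauli principle: `∑ᵢ ‖Pᵢ Ψ‖² ≤ 1` for rank one projections `Pᵢ` acting on particle `i`. -/

set_option autoImplicit false

noncomputable section

namespace Pool.Agent.W819.Kin

open MeasureTheory Filter Topology
open scoped ENNReal ComplexConjugate
open Pool.Agent.W564.MY

variable {N d : ℕ}

/-- partial integral against `h` in the variable `i` -/
def Fi (i : Fin N) (h : E d → ℂ) (f : (Fin N → E d) → ℂ) (x : Fin N → E d) : ℂ :=
  ∫ t, h t * f (Function.update x i t)

/-- the projection `|h̄⟩⟨h̄|` in the variable `i` -/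
def Pr (i : Fin N) (h : E d → ℂ) (f : (Fin N → E d) → ℂ) (x : Fin N → E d) : ℂ :=
  conj (h (x i)) * Fi i h f x

lemma Fi_update (i : Fin N) (h : E d → ℂ) (f : (Fin N → E d) → ℂ) (x : Fin N → E d) (t : E d) :
    Fi i h f (Function.update x i t) = Fi i h f x := by
  unfold Fi
  simp

/-- the kernel function `(x,t) ↦ h(xᵢ) f(x[i:=t])` is in `L²` -/
lemma memLp_ker (i : Fin N) {h : E d → ℂ} (hh : MemLp h 2) {f : (Fin N → E d) → ℂ}
    (hf : MemLp f 2) :
    MemLp (fun z : (Fin N → E d) × E d => h (z.1 i) * f (Function.update z.1 i z.2)) 2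
      ((volume : Measure (Fin N → E d)).prod (volume : Measure (E d))) :=
  memLp_sw i (fun z => h z.2 * f z.1) (memLp_prod h f hh hf)

lemma memLp_Pr (i : Fin N) {h : E d → ℂ} (hh : MemLp h 2) {f : (Fin N → E d) → ℂ}
    (hf : MemLp f 2) : MemLp (Pr i h f) 2 := by
  have h1 := memLp_int hh (memLp_ker i (memLp_conj hh) hf)
  refine (memLp_congr_ae (Filter.Eventually.of_forall fun x => ?_)).1 h1
  simp only [Pr, Fi]
  rw [← integral_const_mul]
  refine integral_congr_ae (Filter.Eventually.of_forall fun t => ?_)
  ring

/-- `Pr` is self-adjoint -/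
lemma Pr_sa (i : Fin N) {h : E d → ℂ} (hh : MemLp h 2) {f g : (Fin N → E d) → ℂ}
    (hf : MemLp f 2) (hg : MemLp g 2) :
    ∫ x, conj (Pr i h f x) * g x = ∫ x, conj (f x) * Pr i h g x := by
  -- both sides as integrals over the product
  set I : (Fin N → E d) × E d → ℂ := fun z =>
    (h (z.1 i) * conj (f (Function.update z.1 i z.2))) * (conj (h z.2) * g z.1) with hI
  set J : (Fin N → E d) × E d → ℂ := fun z =>
    (conj (h (z.1 i)) * g (Function.update z.1 i z.2)) * (h z.2 * conj (f z.1)) with hJ
  have hIi : Integrable I ((volume : Measure (Fin N → E d)).prod (volume : Measure (E d))) :=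
    integrable_mul2 (memLp_ker i hh (memLp_conj hf)) (memLp_prod _ _ (memLp_conj hh) hg)
  have hJi : Integrable J ((volume : Measure (Fin N → E d)).prod (volume : Measure (E d))) :=
    integrable_mul2 (memLp_ker i (memLp_conj hh) hg) (memLp_prod _ _ hh (memLp_conj hf))
  have e1 : ∫ x, conj (Pr i h f x) * g x =
      ∫ z, I z ∂((volume : Measure (Fin N → E d)).prod (volume : Measure (E d))) := by
    rw [integral_prod _ hIi]
    refine integral_congr_ae (Filter.Eventually.of_forall fun x => ?_)
    simp only [Pr, Fi, map_mul, Complex.conj_conj, ← integral_conj, hI]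
    rw [mul_right_comm, ← integral_const_mul]
    refine integral_congr_ae (Filter.Eventually.of_forall fun t => ?_)
    simp only
    ring
  have e2 : ∫ x, conj (f x) * Pr i h g x =
      ∫ z, J z ∂((volume : Measure (Fin N → E d)).prod (volume : Measure (E d))) := by
    rw [integral_prod _ hJi]
    refine integral_congr_ae (Filter.Eventually.of_forall fun x => ?_)
    simp only [Pr, Fi, hJ]
    rw [← mul_assoc, ← integral_const_mul]
    refine integral_congr_ae (Filter.Eventually.of_forall fun t => ?_)
    simp only
    ring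
  rw [e1, e2, ← int_sw i J]
  refine integral_congr_ae (Filter.Eventually.of_forall fun z => ?_)
  simp only [hI, hJ, Function.update_self, Function.update_idem, Function.update_eq_self]
  ring

lemma Pr_idem (i : Fin N) {h : E d → ℂ} (h1 : ∫ t, h t * conj (h t) = 1)
    (f : (Fin N → E d) → ℂ) (x : Fin N → E d) : Pr i h (Pr i h f) x = Pr i h f x := by
  have e : Fi i h (Pr i h f) x = Fi i h f x := by
    have e1 : Fi i h (Pr i h f) x = ∫ t, (h t * conj (h t)) * Fi i h f x := by
      unfold Fi
      refine integral_congr_ae (Filter.Eventually.of_forall fun t => ?_)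
      simp only [Pr, Fi_update, Function.update_self]
      simp only [Fi]
      ring
    rw [e1, integral_mul_const, h1, one_mul]
  unfold Pr
  unfold Pr at e
  rw [e]

/-- exchange of the two last variables of a triple product -/
lemma swT_mp {α : Type*} {mα : MeasurableSpace α} {μ : Measure α} [SFinite μ] :
    MeasurePreserving (fun z : (α × E d) × E d => ((z.1.1, z.2), z.1.2))
      ((μ.prod (volume : Measure (E d))).prod (volume : Measure (E d)))
      ((μ.prod (volume : Measure (E d))).prod (volume : Measure (E d))) := by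
  have a1 : MeasurePreserving (MeasurableEquiv.prodAssoc : (α × E d) × E d ≃ᵐ α × E d × E d)
      ((μ.prod (volume : Measure (E d))).prod (volume : Measure (E d)))
      (μ.prod ((volume : Measure (E d)).prod (volume : Measure (E d)))) :=
    ⟨MeasurableEquiv.prodAssoc.measurable, Measure.prodAssoc_prod⟩
  have a2 : MeasurePreserving (Prod.map (id : α → α) (Prod.swap : E d × E d → E d × E d))
      (μ.prod ((volume : Measure (E d)).prod (volume : Measure (E d))))
      (μ.prod ((volume : Measure (E d)).prod (volume : Measure (E d)))) :=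
    (MeasurePreserving.id _).prod Measure.measurePreserving_swap
  have a3 := a1.symm MeasurableEquiv.prodAssoc
  exact a3.comp (a2.comp a1)

/-- exchange of the two last variables of a triple product, as an equivalence -/
def swT {α : Type*} [MeasurableSpace α] : ((α × E d) × E d) ≃ᵐ ((α × E d) × E d) :=
  MeasurableEquiv.ofInvolutive (fun z => ((z.1.1, z.2), z.1.2)) (fun _ => rfl) (by fun_prop)

lemma update_swap (i j : Fin N) (hij : i ≠ j) (x : Fin N → E d) (t s : E d) :
    (Function.update (Function.update x i t) j s) ∘ Equiv.swap i j =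
      Function.update (Function.update x i s) j t := by
  funext k
  simp only [Function.comp]
  by_cases h1 : k = i
  · subst h1
    rw [Equiv.swap_apply_left, Function.update_self, Function.update_of_ne hij,
      Function.update_self]
  by_cases h2 : k = j
  · subst h2
    rw [Equiv.swap_apply_right, Function.update_self, Function.update_of_ne hij,
      Function.update_self]
  · rw [Equiv.swap_apply_of_ne_of_ne h1 h2]
    simp [Function.update_of_ne h1, Function.update_of_ne h2]

lemma qmp_upd (i : Fin N) : Measure.QuasiMeasurePreserving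
    (fun z : (Fin N → E d) × E d => Function.update z.1 i z.2)
    ((volume : Measure (Fin N → E d)).prod (volume : Measure (E d))) volume := by
  have h1 : Measure.QuasiMeasurePreserving (Prod.fst : (Fin N → E d) × E d → (Fin N → E d))
    ((volume : Measure (Fin N → E d)).prod (volume : Measure (E d))) volume :=
    Measure.quasiMeasurePreserving_fst
  exact h1.comp (sw_mp i).quasiMeasurePreserving

/-- the double update map is quasi measure preserving -/
lemma qmp_upd2 (i j : Fin N) : Measure.QuasiMeasurePreserving
    (fun z : ((Fin N → E d) × E d) × E d => Function.update (Function.update z.1.1 i z.1.2) j z.2)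
    (((volume : Measure (Fin N → E d)).prod (volume : Measure (E d))).prod
      (volume : Measure (E d))) volume := by
  have h1 : MeasurePreserving (Prod.map (swE (d := d) i) (id : E d → E d))
      (((volume : Measure (Fin N → E d)).prod (volume : Measure (E d))).prod
        (volume : Measure (E d)))
      (((volume : Measure (Fin N → E d)).prod (volume : Measure (E d))).prod
        (volume : Measure (E d))) := (sw_mp i).prod (MeasurePreserving.id _)
  have h2 := (swT_mp (d := d) (μ := (volume : Measure (Fin N → E d))))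
  have h3 : Measure.QuasiMeasurePreserving
      (Prod.fst : ((Fin N → E d) × E d) × E d → (Fin N → E d) × E d)
      (((volume : Measure (Fin N → E d)).prod (volume : Measure (E d))).prod
        (volume : Measure (E d)))
      ((volume : Measure (Fin N → E d)).prod (volume : Measure (E d))) :=
    Measure.quasiMeasurePreserving_fst
  exact (qmp_upd j).comp (h3.comp (h2.comp h1).quasiMeasurePreserving)

theorem Pr_orth (i j : Fin N) (hij : i ≠ j) {h : E d → ℂ} (hh : MemLp h 2)
    {f : (Fin N → E d) → ℂ} (hf : MemLp f 2)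
    (ha : ∀ᵐ x : Fin N → E d, f (x ∘ Equiv.swap i j) = -f x) :
    ∫ x, conj (Pr i h f x) * Pr j h f x = 0 := by
  set M := (((volume : Measure (Fin N → E d)).prod (volume : Measure (E d))).prod
      (volume : Measure (E d))) with hM
  set A : ((Fin N → E d) × E d) × E d → ℂ := fun z =>
    h z.2 * (h (z.1.1 i) * conj (f (Function.update z.1.1 i z.1.2))) with hA
  set B' : ((Fin N → E d) × E d) × E d → ℂ := fun z =>
    conj (h z.2) * (conj (h (z.1.1 j)) * f (Function.update z.1.1 j z.1.2)) with hB'
  set B : ((Fin N → E d) × E d) × E d → ℂ := fun z =>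
    conj (h z.1.2) * (conj (h (z.1.1 j)) * f (Function.update z.1.1 j z.2)) with hB
  have hA2 : MemLp A 2 M := memLp_prod' hh (memLp_ker i hh (memLp_conj hf))
  have hB'2 : MemLp B' 2 M := memLp_prod' (memLp_conj hh) (memLp_ker j (memLp_conj hh) hf)
  have hB2 : MemLp B 2 M := hB'2.comp_measurePreserving swT_mp
  have hI : Integrable (fun z => A z * B z) M := integrable_mul2 hA2 hB2
  have e1 : ∫ x, conj (Pr i h f x) * Pr j h f x = ∫ z, A z * B z ∂M := by
    rw [hM, integral_prod _ hI, integral_prod _ hI.integral_prod_left]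
    refine integral_congr_ae (Filter.Eventually.of_forall fun x => ?_)
    simp only [Pr, Fi, map_mul, Complex.conj_conj, ← integral_conj]
    have e2 : ∀ t s : E d, A ((x, t), s) * B ((x, t), s) =
        (h (x i) * conj (h (x j)) * (conj (h t) * conj (f (Function.update x i t)))) *
          (h s * f (Function.update x j s)) := by
      intro t s
      simp only [hA, hB]
      ring
    simp only [e2, integral_const_mul, integral_mul_const]
    ring
  -- exchange `x i` and `t`
  set J : ((Fin N → E d) × E d) × E d → ℂ := fun z =>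
    (h z.1.2 * h z.2 * conj (h (z.1.1 i)) * conj (h (z.1.1 j)) * conj (f z.1.1)) *
      f (Function.update (Function.update z.1.1 i z.1.2) j z.2) with hJ
  have mp1 : MeasurePreserving (MeasurableEquiv.prodCongr (swE (d := d) i)
      (MeasurableEquiv.refl (E d))) M M := (sw_mp i).prod (MeasurePreserving.id _)
  have e3 : ∫ z, A z * B z ∂M = ∫ z, J z ∂M := by
    rw [← mp1.integral_comp' (g := fun z => A z * B z)]
    refine integral_congr_ae (Filter.Eventually.of_forall fun z => ?_)
    obtain ⟨⟨x, t⟩, s⟩ := z
    have e4 : (MeasurableEquiv.prodCongr (swE (d := d) i) (MeasurableEquiv.refl (E d)))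
        ((x, t), s) = ((Function.update x i t, x i), s) := rfl
    simp only [e4, hA, hB, hJ, Function.update_self, Function.update_idem,
      Function.update_eq_self, Function.update_of_ne hij.symm]
    ring
  have mp2 : MeasurePreserving (swT (α := Fin N → E d) (d := d)) M M := swT_mp
  have e5 : ∫ z, J z ∂M = -∫ z, J z ∂M := by
    conv_lhs => rw [← mp2.integral_comp' (g := J)]
    rw [← integral_neg]
    refine integral_congr_ae ?_
    filter_upwards [(qmp_upd2 (d := d) i j).ae ha] with z hz
    obtain ⟨⟨x, t⟩, s⟩ := z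
    have e4 : (swT (α := Fin N → E d) (d := d)) ((x, t), s) = ((x, s), t) := rfl
    simp only at hz
    rw [update_swap i j hij] at hz
    simp only [e4, hJ, hz]
    ring
  rw [e1, e3]
  have : (2 : ℂ) * ∫ z, J z ∂M = 0 := by
    rw [two_mul]
    nth_rw 1 [e5]
    ring
  simpa using this

lemma inner_toLp {α : Type*} {m : MeasurableSpace α} {μ : Measure α} {f g : α → ℂ}
    (hf : MemLp f 2 μ) (hg : MemLp g 2 μ) :
    inner ℂ (hf.toLp f) (hg.toLp g) = ∫ x, conj (f x) * g x ∂μ := by
  rw [L2.inner_def]
  refine integral_congr_ae ?_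
  filter_upwards [hf.coeFn_toLp, hg.coeFn_toLp] with x h1 h2
  rw [h1, h2]
  simp [RCLike.inner_apply, mul_comm]

lemma norm_toLp_sq {α : Type*} {m : MeasurableSpace α} {μ : Measure α} {f : α → ℂ}
    (hf : MemLp f 2 μ) : ‖hf.toLp f‖ ^ 2 = ∫ x, ‖f x‖ ^ 2 ∂μ := by
  have h1 := inner_toLp hf hf
  rw [inner_self_eq_norm_sq_to_K] at h1
  have h2 : ∫ x, conj (f x) * f x ∂μ = ((∫ x, ‖f x‖ ^ 2 ∂μ : ℝ) : ℂ) := by
    rw [← integral_complex_ofReal]
    refine integral_congr_ae (Filter.Eventually.of_forall fun x => ?_)
    simp only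
    rw [mul_comm, Complex.mul_conj, Complex.normSq_eq_norm_sq]
  rw [h2] at h1
  have h3 : ((‖hf.toLp f‖ ^ 2 : ℝ) : ℂ) = ((∫ x, ‖f x‖ ^ 2 ∂μ : ℝ) : ℂ) := by
    rw [← h1]; simp
  exact_mod_cast h3

/-- **Pauli principle** -/
theorem pauli {h : E d → ℂ} (hh : MemLp h 2) (h1 : ∫ t, h t * conj (h t) = 1)
    {f : (Fin N → E d) → ℂ} (hf : MemLp f 2) (hf1 : ∫ x, ‖f x‖ ^ 2 = 1) (ha : Antisym f) :
    ∑ i : Fin N, ∫ x, ‖Pr i h f x‖ ^ 2 ≤ 1 := by
  have h2 := bessel (fun i : Fin N => (memLp_Pr i hh hf).toLp) (hf.toLp f) ?_ ?_
  · simp only [norm_toLp_sq, hf1] at h2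
    exact h2
  · intro i j hij
    rw [inner_toLp]
    exact Pr_orth i j hij hh hf (ha i j hij)
  · intro i
    have e1 : inner ℂ ((memLp_Pr i hh hf).toLp (Pr i h f)) ((memLp_Pr i hh hf).toLp (Pr i h f)) =
        inner ℂ (hf.toLp f) ((memLp_Pr i hh hf).toLp (Pr i h f)) := by
      rw [inner_toLp, inner_toLp, Pr_sa i hh hf (memLp_Pr i hh hf)]
      refine integral_congr_ae (Filter.Eventually.of_forall fun x => ?_)
      simp only
      rw [Pr_idem i h1]
    rw [← inner_conj_symm, ← e1, inner_self_eq_norm_sq_to_K]
    simp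

end Pool.Agent.W819.Kin
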