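import Pool.Agent.W819.Kin.Planch
import Pool.Agent.W819.Kin.Pauli
import Pool.Agent.W819.Kin.Bath

/-! The momentum identity for coherent state transforms. -/

set_option autoImplicit false

noncomputable section

namespace Pool.Agent.W819.Kin

open MeasureTheory Filter Topology
open scoped ENNReal ComplexConjugate
open Pool.Agent.W564.MY

variable {N d : ℕ}

/-- `x ↦ ∫ q(s) b(xᵢ) f(x[i:=s]) ds` -/
def Tq (i : Fin N) (b q : E d → ℂ) (f : (Fin N → E d) → ℂ) (x : Fin N → E d) : ℂ :=
  ∫ s, q s * (b (x i) * f (Function.update x i s))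

lemma memLp_Tq (i : Fin N) {b q : E d → ℂ} (hb : MemLp b 2) (hq : MemLp q 2)
    {f : (Fin N → E d) → ℂ} (hf : MemLp f 2) : MemLp (Tq i b q f) 2 :=
  memLp_int hq (memLp_ker i hb hf)

lemma test_Tq (i : Fin N) {b q : E d → ℂ} (hb : MemLp b 2) (hq : MemLp q 2)
    {f η : (Fin N → E d) → ℂ} (hf : MemLp f 2) (hη : MemLp η 2) :
    ∫ x, η x * Tq i b q f x =
      ∫ s, b s * ∫ x, η (Function.update x i s) * q (x i) * f x := by
  set I : (Fin N → E d) × E d → ℂ := fun z =>
    (q z.2 * η z.1) * (b (z.1 i) * f (Function.update z.1 i z.2)) with hI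
  have hIi : Integrable I ((volume : Measure (Fin N → E d)).prod (volume : Measure (E d))) :=
    integrable_mul2 (memLp_prod _ _ hq hη) (memLp_ker i hb hf)
  have e1 : ∫ x, η x * Tq i b q f x =
      ∫ z, I z ∂((volume : Measure (Fin N → E d)).prod (volume : Measure (E d))) := by
    rw [integral_prod _ hIi]
    refine integral_congr_ae (Filter.Eventually.of_forall fun x => ?_)
    simp only [Tq, hI]
    rw [← integral_const_mul]
    refine integral_congr_ae (Filter.Eventually.of_forall fun t => ?_)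
    simp only
    ring
  have hI2 := integrable_sw i I hIi
  rw [e1, ← int_sw i I, integral_prod_symm _ hI2]
  refine integral_congr_ae (Filter.Eventually.of_forall fun s => ?_)
  simp only [hI]
  rw [← integral_const_mul]
  refine integral_congr_ae (Filter.Eventually.of_forall fun x => ?_)
  simp only [Function.update_self, Function.update_idem, Function.update_eq_self]
  ring

lemma bound_of_hcs {V W : Type*} [NormedAddCommGroup V] [NormedAddCommGroup W] {g : V → W}
    (hg : HasCompactSupport g) : ∃ R : ℝ, ∀ x, R < ‖x‖ → g x = 0 := by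
  obtain ⟨R, hR⟩ := hg.isCompact.isBounded.subset_closedBall 0
  refine ⟨R, fun x hx => ?_⟩
  by_contra h
  have h1 : x ∈ Metric.closedBall (0 : V) R := hR (subset_tsupport _ h)
  rw [mem_closedBall_zero_iff] at h1
  linarith

lemma phi_props (i : Fin N) (c : Fin d) (g : (Fin N → E d) → ℝ)
    (hg : ContDiff ℝ ((⊤ : ℕ∞) : WithTop ℕ∞) g) (hgc : HasCompactSupport g) (q : E d → ℂ)
    (hq : ContDiff ℝ ((⊤ : ℕ∞) : WithTop ℕ∞) q) (hqc : HasCompactSupport q) (s : E d) :
    ContDiff ℝ ((⊤ : ℕ∞) : WithTop ℕ∞)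
      (fun x : Fin N → E d => ((g (Function.update x i s) : ℝ) : ℂ) * q (x i)) ∧
    HasCompactSupport (fun x : Fin N → E d => ((g (Function.update x i s) : ℝ) : ℂ) * q (x i)) ∧
    ∀ x : Fin N → E d,
      fderiv ℝ (fun x : Fin N → E d => ((g (Function.update x i s) : ℝ) : ℂ) * q (x i)) x
        (Pi.single i (Pi.single c (1 : ℝ))) =
      ((g (Function.update x i s) : ℝ) : ℂ) * fderiv ℝ q (x i) (Pi.single c (1 : ℝ)) := by
  have hu : ContDiff ℝ ((⊤ : ℕ∞) : WithTop ℕ∞)
      (fun x : Fin N → E d => Function.update x i s) := by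
    rw [contDiff_pi]
    intro j
    by_cases h : j = i
    · subst h
      simp only [Function.update_self]
      exact contDiff_const
    · simp only [Function.update_of_ne h]
      exact contDiff_apply ℝ (E d) j
  have h1 : ContDiff ℝ ((⊤ : ℕ∞) : WithTop ℕ∞)
      (fun x : Fin N → E d => ((g (Function.update x i s) : ℝ) : ℂ) * q (x i)) := by
    have h2 : ContDiff ℝ ((⊤ : ℕ∞) : WithTop ℕ∞)
        (fun x : Fin N → E d => ((g (Function.update x i s) : ℝ) : ℂ)) :=
      Complex.ofRealCLM.contDiff.comp (hg.comp hu)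
    exact h2.mul (hq.comp (contDiff_apply ℝ (E d) i))
  refine ⟨h1, ?_, ?_⟩
  · obtain ⟨R1, hR1⟩ := bound_of_hcs hgc
    obtain ⟨R2, hR2⟩ := bound_of_hcs hqc
    refine HasCompactSupport.intro (isCompact_closedBall (0 : Fin N → E d) (max (max R1 R2) 0)) ?_
    intro x hx
    rw [mem_closedBall_zero_iff, pi_norm_le_iff_of_nonneg (le_max_right _ _)] at hx
    push Not at hx
    obtain ⟨j, hj⟩ := hx
    have hj1 : R1 < ‖x j‖ := lt_of_le_of_lt ((le_max_left _ _).trans (le_max_left _ _)) hj
    have hj2 : R2 < ‖x j‖ := lt_of_le_of_lt ((le_max_right _ _).trans (le_max_left _ _)) hj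
    by_cases h : j = i
    · subst h
      rw [hR2 _ hj2, mul_zero]
    · have h3 : ‖x j‖ ≤ ‖Function.update x i s‖ := by
        have := norm_le_pi_norm (Function.update x i s) j
        rwa [Function.update_of_ne h] at this
      rw [hR1 _ (lt_of_lt_of_le hj1 h3), Complex.ofReal_zero, zero_mul]
  · intro x
    have hd : DifferentiableAt ℝ
        (fun x : Fin N → E d => ((g (Function.update x i s) : ℝ) : ℂ) * q (x i)) x :=
      (h1.differentiable (by simp)) x
    rw [← hd.lineDeriv_eq_fderiv]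
    have hdq : DifferentiableAt ℝ q (x i) := (hq.differentiable (by simp)) _
    rw [← hdq.lineDeriv_eq_fderiv]
    unfold lineDeriv
    have e : (fun t : ℝ => ((g (Function.update
          (x + t • (Pi.single i (Pi.single c (1 : ℝ)) : Fin N → E d)) i s) : ℝ) : ℂ) * q ((x + t • (Pi.single i (Pi.single c (1 : ℝ)) : Fin N → E d)) i)) =
        fun t : ℝ => ((g (Function.update x i s) : ℝ) : ℂ) *
          q (x i + t • Pi.single c (1 : ℝ)) := by
      funext t
      have e1 : Function.update (x + t • (Pi.single i (Pi.single c (1 : ℝ)) : Fin N → E d)) i s =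
          Function.update x i s := by
        funext j
        by_cases h : j = i
        · subst h; simp
        · simp [Function.update_of_ne h, Pi.single_eq_of_ne h]
      rw [e1]
      simp
    rw [e]
    exact deriv_const_mul_field _

/-- momentum identity -/
theorem mom (i : Fin N) (c : Fin d) {b q : E d → ℂ} (hb : MemLp b 2)
    (hq : ContDiff ℝ ((⊤ : ℕ∞) : WithTop ℕ∞) q) (hqc : HasCompactSupport q)
    {Ψ G : (Fin N → E d) → ℂ} (hΨ : MemLp Ψ 2) (hG : MemLp G 2)
    (hW : WeakDir (Pi.single i (Pi.single c (1 : ℝ))) Ψ G) :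
    ∀ᵐ x, Tq i b q G x + Tq i b (fun t => fderiv ℝ q t (Pi.single c (1 : ℝ))) Ψ x = 0 := by
  have hq2 : MemLp q 2 := hq.continuous.memLp_of_hasCompactSupport hqc
  have hdc : Continuous (fun t => fderiv ℝ q t (Pi.single c (1 : ℝ))) :=
    (hq.continuous_fderiv (by simp)).clm_apply continuous_const
  have hdcs : HasCompactSupport (fun t => fderiv ℝ q t (Pi.single c (1 : ℝ))) :=
    hqc.fderiv_apply (𝕜 := ℝ) _
  have hq3 : MemLp (fun t => fderiv ℝ q t (Pi.single c (1 : ℝ))) 2 :=
    hdc.memLp_of_hasCompactSupport hdcs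
  have hm1 : MemLp (Tq i b q G) 2 := memLp_Tq i hb hq2 hG
  have hm2 : MemLp (Tq i b (fun t => fderiv ℝ q t (Pi.single c (1 : ℝ))) Ψ) 2 :=
    memLp_Tq i hb hq3 hΨ
  refine ae_eq_zero_of_integral_contDiff_smul_eq_zero
    ((hm1.add hm2).locallyIntegrable (by norm_num)) ?_
  intro g hg hgc
  have hg2 : MemLp (fun x => ((g x : ℝ) : ℂ)) 2 := by
    have h1 : HasCompactSupport (fun x => ((g x : ℝ) : ℂ)) :=
      hgc.comp_left (g := fun y : ℝ => (y : ℂ)) Complex.ofReal_zero
    exact (Complex.continuous_ofReal.comp hg.continuous).memLp_of_hasCompactSupport h1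
  have e1 : ∫ x, g x • (Tq i b q G x +
      Tq i b (fun t => fderiv ℝ q t (Pi.single c (1 : ℝ))) Ψ x) =
      (∫ x, ((g x : ℝ) : ℂ) * Tq i b q G x) + ∫ x, ((g x : ℝ) : ℂ) *
        Tq i b (fun t => fderiv ℝ q t (Pi.single c (1 : ℝ))) Ψ x := by
    rw [← integral_add (integrable_mul2 hg2 hm1) (integrable_mul2 hg2 hm2)]
    refine integral_congr_ae (Filter.Eventually.of_forall fun x => ?_)
    simp only [Complex.real_smul]
    ring
  rw [e1, test_Tq i hb hq2 hG hg2, test_Tq i hb hq3 hΨ hg2]
  have e2 : ∀ s : E d, ∫ x, ((g (Function.update x i s) : ℝ) : ℂ) * q (x i) * G x =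
      -∫ x, ((g (Function.update x i s) : ℝ) : ℂ) *
        fderiv ℝ q (x i) (Pi.single c (1 : ℝ)) * Ψ x := by
    intro s
    obtain ⟨p1, p2, p3⟩ := phi_props i c g hg hgc q hq hqc s
    have h3 := hW _ p1 p2
    simp only [p3] at h3
    have h4 : ∫ x, ((g (Function.update x i s) : ℝ) : ℂ) * q (x i) * G x =
        ∫ x, G x * (((g (Function.update x i s) : ℝ) : ℂ) * q (x i)) := by
      refine integral_congr_ae (Filter.Eventually.of_forall fun x => ?_)
      simp only
      ring
    have h5 : ∫ x, ((g (Function.update x i s) : ℝ) : ℂ) *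
        fderiv ℝ q (x i) (Pi.single c (1 : ℝ)) * Ψ x =
        ∫ x, Ψ x * (((g (Function.update x i s) : ℝ) : ℂ) *
          fderiv ℝ q (x i) (Pi.single c (1 : ℝ))) := by
      refine integral_congr_ae (Filter.Eventually.of_forall fun x => ?_)
      simp only
      ring
    rw [h4, h5, h3, neg_neg]
  simp only [e2, mul_neg, integral_neg]
  ring

end Pool.Agent.W819.Kin
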