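import Pool.Agent.H153R4.Pl
import Pool.Agent.W564.MY.Defs

/-! Plancherel on `Fin d → ℝ`, product version. -/

set_option autoImplicit false

noncomputable section

namespace Pool.Agent.W819.Kin

open MeasureTheory Filter Topology FourierTransform
open scoped ENNReal ComplexConjugate
open Pool.Agent.W564.MY

/-- the phase `exp (-2 π i p·t)` -/
def ph {d : ℕ} (p t : E d) : ℂ := Complex.exp (((-(2 * Real.pi * ∑ j, p j * t j) : ℝ) : ℂ) * Complex.I)

lemma norm_ph {d : ℕ} (p t : E d) : ‖ph p t‖ = 1 := by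
  unfold ph
  exact Complex.norm_exp_ofReal_mul_I _

lemma enorm_ph {d : ℕ} (p t : E d) : ‖ph p t‖ₑ = 1 := by
  rw [← ofReal_norm, norm_ph, ENNReal.ofReal_one]

lemma ph_cont {d : ℕ} : Continuous (fun q : E d × E d => ph q.1 q.2) := by
  unfold ph
  fun_prop

lemma ph_cont_right {d : ℕ} (p : E d) : Continuous (ph p) := by
  unfold ph
  fun_prop

theorem planchE {d : ℕ} (f : E d → ℂ) (h1 : Integrable f) (h2 : MemLp f 2) :
    ∫⁻ p : E d, ‖∫ t, ph p t * f t‖ₑ ^ 2 = ∫⁻ t, ‖f t‖ₑ ^ 2 := by
  have mp := PiLp.volume_preserving_ofLp (Fin d)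
  have mp' := PiLp.volume_preserving_toLp (Fin d)
  have me : MeasurableEmbedding (WithLp.ofLp : EuclideanSpace ℝ (Fin d) → (Fin d → ℝ)) :=
    (MeasurableEquiv.toLp 2 (Fin d → ℝ)).symm.measurableEmbedding
  have me' : MeasurableEmbedding (WithLp.toLp 2 : (Fin d → ℝ) → EuclideanSpace ℝ (Fin d)) :=
    (MeasurableEquiv.toLp 2 (Fin d → ℝ)).measurableEmbedding
  set g : EuclideanSpace ℝ (Fin d) → ℂ := fun x => f (WithLp.ofLp x) with hg
  have g1 : Integrable g := mp.integrable_comp_of_integrable h1
  have g2 : MemLp g 2 := h2.comp_measurePreserving mp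
  have hpl := Pool.Agent.H153R4.plancherel g g1 g2
  have e1 : ∫⁻ x, ‖g x‖ₑ ^ 2 = ∫⁻ t, ‖f t‖ₑ ^ 2 :=
    mp.lintegral_comp_emb me (fun t => ‖f t‖ₑ ^ 2)
  have e2 : ∀ p : E d, 𝓕 g (WithLp.toLp 2 p) = ∫ t, ph p t * f t := by
    intro p
    rw [Real.fourier_eq']
    rw [← mp'.integral_comp me']
    refine integral_congr_ae (Filter.Eventually.of_forall fun t => ?_)
    simp only [hg, smul_eq_mul, ph]
    congr 2
    rw [PiLp.inner_apply]
    simp only [RCLike.inner_apply, conj_trivial]
    push_cast
    ring_nf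
  have e3 : ∫⁻ p : E d, ‖∫ t, ph p t * f t‖ₑ ^ 2 = ∫⁻ ξ, ‖𝓕 g ξ‖ₑ ^ 2 := by
    rw [← mp'.lintegral_comp_emb me' (fun ξ => ‖𝓕 g ξ‖ₑ ^ 2)]
    refine lintegral_congr fun p => ?_
    rw [e2]
  rw [e3, hpl, e1]

lemma aux_meas {d : ℕ} {α : Type} [MeasureSpace α]
    (P : E d → E d → ℂ) (hP : Measurable (fun q : E d × E d => P q.1 q.2)) :
    Measurable (fun w : (E d × α) × E d => P w.1.1 w.2) := by
  have hg : Measurable (fun w : (E d × α) × E d => ((w.1.1, w.2) : E d × E d)) := by
    exact Measurable.prodMk (measurable_fst.comp measurable_fst) measurable_snd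
  exact hP.comp hg

lemma planch_aesm {d : ℕ} {α : Type} [MeasureSpace α] [SFinite (volume : Measure α)]
    (q : α × E d → ℂ)
    (hq : AEStronglyMeasurable q ((volume : Measure α).prod (volume : Measure (E d)))) :
    AEStronglyMeasurable (fun z : E d × α => ∫ t, ph z.1 t * q (z.2, t))
      ((volume : Measure (E d)).prod (volume : Measure α)) := by
  have h3 : AEStronglyMeasurable (fun w : (E d × α) × E d => ph w.1.1 w.2 * q (w.1.2, w.2))
      (((volume : Measure (E d)).prod (volume : Measure α)).prod (volume : Measure (E d))) := by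
    have hph := aux_meas (α := α) ph (ph_cont (d := d)).measurable
    have hmp : Measure.QuasiMeasurePreserving (fun w : (E d × α) × E d => (w.1.2, w.2))
        (((volume : Measure (E d)).prod (volume : Measure α)).prod (volume : Measure (E d)))
        ((volume : Measure α).prod (volume : Measure (E d))) := by
      have h4 : MeasurePreserving (MeasurableEquiv.prodAssoc : (E d × α) × E d ≃ᵐ E d × α × E d)
          (((volume : Measure (E d)).prod (volume : Measure α)).prod (volume : Measure (E d)))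
          ((volume : Measure (E d)).prod ((volume : Measure α).prod (volume : Measure (E d)))) :=
        ⟨MeasurableEquiv.prodAssoc.measurable, Measure.prodAssoc_prod⟩
      exact Measure.quasiMeasurePreserving_snd.comp h4.quasiMeasurePreserving
    have h5 : AEStronglyMeasurable (fun w : (E d × α) × E d => q (w.1.2, w.2))
        (((volume : Measure (E d)).prod (volume : Measure α)).prod (volume : Measure (E d))) :=
      AEStronglyMeasurable.comp_quasiMeasurePreserving hq hmp
    have h6 : AEStronglyMeasurable (fun w : (E d × α) × E d => ph w.1.1 w.2)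
        (((volume : Measure (E d)).prod (volume : Measure α)).prod (volume : Measure (E d))) :=
      hph.aestronglyMeasurable
    exact AEStronglyMeasurable.mul h6 h5
  exact h3.integral_prod_right'

/-- product version: `q(x,·) ∈ L¹ ∩ L²` for a.e. `x` -/
theorem planch_prod {d : ℕ} {α : Type} [MeasureSpace α] [SFinite (volume : Measure α)]
    (q : α × E d → ℂ)
    (hq : AEStronglyMeasurable q ((volume : Measure α).prod (volume : Measure (E d))))
    (h1 : ∀ᵐ x : α, Integrable (fun t => q (x, t))) (h2 : ∀ᵐ x : α, MemLp (fun t => q (x, t)) 2) :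
    ∫⁻ p : E d, ∫⁻ x : α, ‖∫ t, ph p t * q (x, t)‖ₑ ^ 2 = ∫⁻ x : α, ∫⁻ t, ‖q (x, t)‖ₑ ^ 2 := by
  have hm := planch_aesm q hq
  rw [lintegral_lintegral_swap]
  · refine lintegral_congr_ae ?_
    filter_upwards [h1, h2] with x hx1 hx2
    exact planchE _ hx1 hx2
  · exact (hm.enorm).pow_const 2

/-- the measurability of the transformed function -/
lemma planch_aem {d : ℕ} {α : Type} [MeasureSpace α] [SFinite (volume : Measure α)]
    (q : α × E d → ℂ)
    (hq : AEStronglyMeasurable q ((volume : Measure α).prod (volume : Measure (E d)))) :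
    AEMeasurable (fun p : E d => ∫⁻ x : α, ‖∫ t, ph p t * q (x, t)‖ₑ ^ 2) :=
  ((planch_aesm q hq).enorm.pow_const 2).lintegral_prod_right'

end Pool.Agent.W819.Kin
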