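import Pool.Agent.W564.MY.Defs

/-! The measure preserving exchange `(x, t) ↦ (x[i := t], x i)` and density lemmas. -/

set_option autoImplicit false

noncomputable section

namespace Pool.Agent.W819.Kin

open MeasureTheory Filter Topology
open scoped ENNReal ComplexConjugate
open Pool.Agent.W564.MY

variable {N d : ℕ}

/-- exchange of the coordinate `i` with the extra variable -/
def sw (i : Fin N) (z : (Fin N → E d) × E d) : (Fin N → E d) × E d :=
  (Function.update z.1 i z.2, z.1 i)

lemma sw_invol (i : Fin N) : Function.Involutive (sw (d := d) i) := by
  intro z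
  simp [sw]

lemma measurable_sw (i : Fin N) : Measurable (sw (d := d) i) := by
  unfold sw
  refine Measurable.prodMk ?_ ?_
  · refine measurable_pi_iff.2 fun j => ?_
    by_cases h : j = i
    · subst h
      simpa using measurable_snd
    · have h1 : Measurable (fun x : (Fin N → E d) × E d => x.1 j) :=
        (measurable_pi_apply j).comp measurable_fst
      simpa [Function.update_of_ne h] using h1
  · exact (measurable_pi_apply i).comp measurable_fst

/-- the exchange as a measurable equivalence -/
def swE (i : Fin N) : ((Fin N → E d) × E d) ≃ᵐ ((Fin N → E d) × E d) :=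
  MeasurableEquiv.ofInvolutive (sw i) (sw_invol i) (measurable_sw i)

lemma swE_apply (i : Fin N) (z : (Fin N → E d) × E d) :
    swE i z = (Function.update z.1 i z.2, z.1 i) := rfl

theorem sw_mp (i : Fin N) : MeasurePreserving (swE (d := d) i)
    ((volume : Measure (Fin N → E d)).prod (volume : Measure (E d)))
    ((volume : Measure (Fin N → E d)).prod (volume : Measure (E d))) := by
  refine ⟨(swE i).measurable, ?_⟩
  obtain ⟨n, rfl⟩ : ∃ n, N = n + 1 := ⟨N - 1, by have := i.pos; omega⟩
  -- coordinates
  let e : (Fin (n + 1) → E d) ≃ᵐ E d × (Fin n → E d) :=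
    MeasurableEquiv.piFinSuccAbove (fun _ => E d) i
  have he : MeasurePreserving e volume volume := volume_preserving_piFinSuccAbove (fun _ => E d) i
  let r : (E d × (Fin n → E d)) × E d → (E d × (Fin n → E d)) × E d :=
    fun w => ((w.2, w.1.2), w.1.1)
  have hr : MeasurePreserving r (((volume : Measure (E d)).prod
      (volume : Measure (Fin n → E d))).prod (volume : Measure (E d)))
      (((volume : Measure (E d)).prod
      (volume : Measure (Fin n → E d))).prod (volume : Measure (E d))) := by
    have a1 : MeasurePreserving (MeasurableEquiv.prodAssoc :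
        (E d × (Fin n → E d)) × E d ≃ᵐ E d × (Fin n → E d) × E d)
        (((volume : Measure (E d)).prod (volume : Measure (Fin n → E d))).prod
          (volume : Measure (E d)))
        ((volume : Measure (E d)).prod ((volume : Measure (Fin n → E d)).prod
          (volume : Measure (E d)))) :=
      ⟨MeasurableEquiv.prodAssoc.measurable, Measure.prodAssoc_prod⟩
    have a2 : MeasurePreserving (Prod.map (id : E d → E d)
        (Prod.swap : (Fin n → E d) × E d → E d × (Fin n → E d)))
        ((volume : Measure (E d)).prod ((volume : Measure (Fin n → E d)).prod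
          (volume : Measure (E d))))
        ((volume : Measure (E d)).prod ((volume : Measure (E d)).prod
          (volume : Measure (Fin n → E d)))) :=
      (MeasurePreserving.id _).prod Measure.measurePreserving_swap
    have a3 : MeasurePreserving (Prod.swap : E d × (E d × (Fin n → E d)) →
        (E d × (Fin n → E d)) × E d)
        ((volume : Measure (E d)).prod ((volume : Measure (E d)).prod
          (volume : Measure (Fin n → E d))))
        (((volume : Measure (E d)).prod
          (volume : Measure (Fin n → E d))).prod (volume : Measure (E d))) :=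
      Measure.measurePreserving_swap
    exact a3.comp (a2.comp a1)
  have h1 : MeasurePreserving (Prod.map e (id : E d → E d))
      ((volume : Measure (Fin (n + 1) → E d)).prod (volume : Measure (E d)))
      (((volume : Measure (E d)).prod (volume : Measure (Fin n → E d))).prod
        (volume : Measure (E d))) := he.prod (MeasurePreserving.id _)
  have h2 : MeasurePreserving (Prod.map e.symm (id : E d → E d))
      (((volume : Measure (E d)).prod (volume : Measure (Fin n → E d))).prod
        (volume : Measure (E d)))
      ((volume : Measure (Fin (n + 1) → E d)).prod (volume : Measure (E d))) :=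
    (he.symm e).prod (MeasurePreserving.id _)
  have h3 := h2.comp (hr.comp h1)
  have h4 : (Prod.map e.symm (id : E d → E d)) ∘ r ∘ (Prod.map e (id : E d → E d)) =
      (swE i : (Fin (n + 1) → E d) × E d → (Fin (n + 1) → E d) × E d) := by
    funext z
    obtain ⟨x, t⟩ := z
    rw [swE_apply]
    refine Prod.ext ?_ rfl
    show i.insertNth t (fun j => x (i.succAbove j)) = Function.update x i t
    funext j
    rcases Fin.eq_self_or_eq_succAbove i j with h | ⟨k, h⟩
    · subst h; simp
    · subst h; simp
  rw [← h4]
  exact h3.map_eq

lemma lint_sw (i : Fin N) (f : (Fin N → E d) × E d → ℝ≥0∞) :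
    ∫⁻ z, f (Function.update z.1 i z.2, z.1 i)
      ∂((volume : Measure (Fin N → E d)).prod (volume : Measure (E d))) =
    ∫⁻ z, f z ∂((volume : Measure (Fin N → E d)).prod (volume : Measure (E d))) :=
  (sw_mp i).lintegral_comp_emb (swE i).measurableEmbedding f

lemma int_sw (i : Fin N) (f : (Fin N → E d) × E d → ℂ) :
    ∫ z, f (Function.update z.1 i z.2, z.1 i)
      ∂((volume : Measure (Fin N → E d)).prod (volume : Measure (E d))) =
    ∫ z, f z ∂((volume : Measure (Fin N → E d)).prod (volume : Measure (E d))) :=
  (sw_mp i).integral_comp' (g := f)

lemma integrable_sw (i : Fin N) (f : (Fin N → E d) × E d → ℂ)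
    (hf : Integrable f ((volume : Measure (Fin N → E d)).prod (volume : Measure (E d)))) :
    Integrable (fun z : (Fin N → E d) × E d => f (Function.update z.1 i z.2, z.1 i))
      ((volume : Measure (Fin N → E d)).prod (volume : Measure (E d))) :=
  (sw_mp i).integrable_comp_of_integrable hf

lemma memLp_sw (i : Fin N) (f : (Fin N → E d) × E d → ℂ)
    (hf : MemLp f 2 ((volume : Measure (Fin N → E d)).prod (volume : Measure (E d)))) :
    MemLp (fun z : (Fin N → E d) × E d => f (Function.update z.1 i z.2, z.1 i)) 2
      ((volume : Measure (Fin N → E d)).prod (volume : Measure (E d))) :=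
  hf.comp_measurePreserving (sw_mp i)

/-- functions `x ↦ f (x[i := t])` on the product -/
lemma aesm_upd (i : Fin N) (f : (Fin N → E d) → ℂ) (hf : AEStronglyMeasurable f volume) :
    AEStronglyMeasurable (fun z : (Fin N → E d) × E d => f (Function.update z.1 i z.2))
      ((volume : Measure (Fin N → E d)).prod (volume : Measure (E d))) := by
  have h : AEStronglyMeasurable (fun z : (Fin N → E d) × E d => f z.1)
      ((volume : Measure (Fin N → E d)).prod (volume : Measure (E d))) := hf.comp_fst
  exact h.comp_quasiMeasurePreserving (sw_mp i).quasiMeasurePreserving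

/-- product of an `L²` function of the extra variable with an `L²` function -/
lemma memLp_prod {α : Type} [MeasureSpace α] [SFinite (volume : Measure α)]
    (a : E d → ℂ) (f : α → ℂ) (ha : MemLp a 2) (hf : MemLp f 2) :
    MemLp (fun z : α × E d => a z.2 * f z.1) 2
      ((volume : Measure α).prod (volume : Measure (E d))) := by
  have hm : AEStronglyMeasurable (fun z : α × E d => a z.2 * f z.1)
      ((volume : Measure α).prod (volume : Measure (E d))) :=
    (ha.1.comp_snd).mul (hf.1.comp_fst)
  rw [memLp_two_iff_integrable_sq_norm hm]
  have h1 := (memLp_two_iff_integrable_sq_norm ha.1).1 ha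
  have h2 := (memLp_two_iff_integrable_sq_norm hf.1).1 hf
  have h3 := h2.mul_prod h1
  refine h3.congr (Filter.Eventually.of_forall fun z => ?_)
  simp only [norm_mul]
  ring

end Pool.Agent.W819.Kin
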